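import Pool.Agent.Work.MP_5e120e_nt.Fin.Largest
import Pool.Agent.Work.MP_5e120e_nt.Assem

/-! # Final forms -/

namespace Pool.Agent.L3

theorem mainH : MainH := fun _ hx hq h1 => by
  obtain ⟨M, hM, h⟩ := main_fin hx hq h1
  exact ⟨M, hM, fun a b c d hp hd hy => h a b c d hp hd hy⟩

theorem orbit_markov {x : ℝ} (hx : Irrational x) (hq : ¬ Quad x)
    (h1 : lagrangeValue x ≤ ((3 : ℝ) : EReal)) : ∃ m : ℕ, (∃ a b : ℕ, 0 < a ∧ a ≤ m ∧ 0 < b ∧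
      b ≤ m ∧ a ^ 2 + b ^ 2 + m ^ 2 = 3 * a * b * m) ∧ ∃ F : Finset ℝ, ∀ a b c d : ℤ,
      Nat.gcd (Int.gcd a b) (Int.gcd c d) = 1 → a * d - b * c ≠ 0 →
      lagrangeValue ((a * x + b) / (c * x + d)) ≤ ((3 : ℝ) : EReal) →
      (∃ t : ℕ, t ∣ m ∧ |a * d - b * c| = (t : ℤ) ^ 2) ∧
      ∃ z ∈ F, ∃ p q r s : ℤ, p * s - q * r = 1 ∧
        (a * x + b) / (c * x + d) = (p * z + q) / (r * z + s) := by
  obtain ⟨M, hM, h⟩ := main_fin hx hq h1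
  obtain ⟨m, a, b, rfl, g1, g2, g3, g4, g5⟩ := hM.nat
  obtain ⟨F, hF⟩ := orbit_finite mainH hx hq
  refine ⟨m, ⟨a, b, g1, g2, g3, g4, g5⟩, F, fun a b c d hg hd hy => ⟨?_, hF a b c d hd hy⟩⟩
  obtain ⟨t, ht1, ht2⟩ := h a b c d (prim_of_gcd hg) hd hy
  exact ⟨t, by exact_mod_cast ht1, ht2⟩

end Pool.Agent.L3
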