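import Mathlib

/-! # Balanced words of irrational slope over finite sets of states

A one-sided balanced word of irrational slope, together with states which are moved by two
injective maps. Desubstitution shows that some set of states is invariant and consists of states at
which the word branches after arbitrarily long common pasts. -/

namespace Pool.Agent.L3

/-- one-sided balanced words of irrational slope -/
structure LW (w S : ℕ → ℤ) (α : ℝ) : Prop where
  w01 : ∀ n, w n = 0 ∨ w n = 1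
  hS : ∀ n, S (n + 1) = S n + w n
  bal : ∀ m n k : ℕ, (S (m + k) - S m) - (S (n + k) - S n) ≤ 1
  irr : Irrational α
  disc : ∃ C : ℝ, ∀ n : ℕ, |(S n : ℝ) - n * α| ≤ C

section
variable {w S : ℕ → ℤ} {α : ℝ}

theorem LW.compl (h : LW w S α) : LW (fun n => 1 - w n) (fun n => n - S n) (1 - α) where
  w01 n := by
    show 1 - w n = 0 ∨ 1 - w n = 1
    rcases h.w01 n with h | h <;> omega
  hS n := by
    show ((n + 1 : ℕ) : ℤ) - S (n + 1) = n - S n + (1 - w n)
    rw [h.hS n]
    push_cast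
    ring
  bal m n k := by
    show (((m + k : ℕ) : ℤ) - S (m + k) - (m - S m)) - (((n + k : ℕ) : ℤ) - S (n + k) -
      (n - S n)) ≤ 1
    have := h.bal n m k
    push_cast
    linarith
  irr := by
    have := h.irr.intCast_sub 1
    simpa using this
  disc := by
    obtain ⟨C, hC⟩ := h.disc
    refine ⟨C, fun n => ?_⟩
    have := hC n
    show |(((n - S n : ℤ)) : ℝ) - n * (1 - α)| ≤ C
    have e : (((n - S n : ℤ)) : ℝ) - n * (1 - α) = -((S n : ℝ) - n * α) := by
      push_cast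
      ring
    rw [e, abs_neg]
    exact this

theorem LW.mono (h : LW w S α) {m n : ℕ} (hmn : m ≤ n) : S m ≤ S n := by
  induction n, hmn using Nat.le_induction with
  | base => exact le_rfl
  | succ n _ ih =>
    rw [h.hS n]
    rcases h.w01 n with h1 | h1 <;> omega

theorem LW.pos (h : LW w S α) : 0 < α := by
  obtain ⟨C, hC⟩ := h.disc
  by_contra hcon
  have h1 : α < 0 := lt_of_le_of_ne (not_lt.1 hcon) h.irr.ne_zero
  obtain ⟨n, hn⟩ := exists_nat_gt ((C - S 0) / (-α))
  rw [div_lt_iff₀ (by linarith)] at hn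
  have h2 := (abs_le.1 (hC n)).2
  have h3 : (S 0 : ℝ) ≤ S n := by exact_mod_cast h.mono (Nat.zero_le n)
  linarith

theorem LW.lt_one (h : LW w S α) : α < 1 := by
  have := h.compl.pos
  linarith

theorem LW.io (h : LW w S α) (N : ℕ) : ∃ n, N ≤ n ∧ w n = 1 := by
  obtain ⟨C, hC⟩ := h.disc
  by_contra hcon
  push Not at hcon
  have h1 : ∀ i : ℕ, S (N + i) = S N := by
    intro i
    induction i with
    | zero => rfl
    | succ i ih =>
      rw [← add_assoc, h.hS (N + i), ih]
      rcases h.w01 (N + i) with h2 | h2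
      · omega
      · exact absurd h2 (hcon (N + i) (by omega))
  have hp := h.pos
  obtain ⟨i, hi⟩ := exists_nat_gt ((C + S N) / α)
  rw [div_lt_iff₀ hp] at hi
  have h2 := (abs_le.1 (hC (N + i))).1
  rw [h1 i] at h2
  push_cast at h2
  have h3 : (0 : ℝ) ≤ N * α := by positivity
  linarith

/-- desubstitution `0 ↦ 0 1`, `1 ↦ 1` -/
theorem LW.step1 (h : LW w S α) (h00 : ∀ n, w n = 0 → w (n + 1) = 1) : ∃ (p : ℕ → ℕ)
    (S' : ℕ → ℤ), (∀ k, 1 ≤ p k ∧ w (p k - 1) = 1) ∧ (∀ k, w (p k) = 1 → p (k + 1) = p k + 1) ∧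
      (∀ k, w (p k) = 0 → p (k + 1) = p k + 2 ∧ w (p k + 1) = 1) ∧
      LW (fun k => w (p k)) S' (2 - 1 / α) := by
  classical
  obtain ⟨p0, -, hp0⟩ := h.io 0
  obtain ⟨p, hz, hs⟩ : ∃ p : ℕ → ℕ, p 0 = p0 + 1 ∧
      ∀ k, p (k + 1) = if w (p k) = 1 then p k + 1 else p k + 2 :=
    ⟨fun k => Nat.rec (motive := fun _ => ℕ) (p0 + 1)
      (fun _ r => if w r = 1 then r + 1 else r + 2) k, rfl, fun _ => rfl⟩
  have hs1 : ∀ k, w (p k) = 1 → p (k + 1) = p k + 1 := fun k hk => by rw [hs, if_pos hk]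
  have hs0 : ∀ k, w (p k) = 0 → p (k + 1) = p k + 2 := fun k hk => by
    rw [hs, if_neg (by omega)]
  have hpk : ∀ k, 1 ≤ p k ∧ w (p k - 1) = 1 := by
    intro k
    induction k with
    | zero => rw [hz]; exact ⟨by omega, hp0⟩
    | succ k ih =>
      rcases h.w01 (p k) with h1 | h1
      · rw [hs0 k h1]
        exact ⟨by omega, h00 _ h1⟩
      · rw [hs1 k h1]
        exact ⟨by omega, h1⟩
  have hmono : StrictMono p := by
    apply strictMono_nat_of_lt_succ
    intro k
    rcases h.w01 (p k) with h1 | h1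
    · rw [hs0 k h1]; omega
    · rw [hs1 k h1]; omega
  have hSp : ∀ k, S (p k) = k + S (p 0) := by
    intro k
    induction k with
    | zero => simp
    | succ k ih =>
      rcases h.w01 (p k) with h1 | h1
      · rw [hs0 k h1]
        have e1 := h.hS (p k + 1)
        have e2 := h.hS (p k)
        rw [h00 _ h1] at e1
        rw [show p k + 2 = p k + 1 + 1 by ring, e1, e2, h1, ih]
        push_cast
        ring
      · rw [hs1 k h1, h.hS, h1, ih]
        push_cast
        ring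
  have hS'ex : ∃ S' : ℕ → ℤ, ∀ k : ℕ, S' k = 2 * (k : ℤ) - ((p k : ℕ) : ℤ) + ((p 0 : ℕ) : ℤ) :=
    ⟨fun k => 2 * (k : ℤ) - ((p k : ℕ) : ℤ) + ((p 0 : ℕ) : ℤ), fun _ => rfl⟩
  obtain ⟨S', hS'⟩ := hS'ex
  refine ⟨p, S', hpk, hs1, fun k hk => ⟨hs0 k hk, h00 _ hk⟩, ?_, ?_, ?_, ?_, ?_⟩
  · exact fun k => h.w01 _
  · intro k
    rw [hS', hS']
    rcases h.w01 (p k) with h1 | h1
    · rw [hs0 k h1, h1]
      push_cast
      ring
    · rw [hs1 k h1, h1]
      push_cast
      ring
  · intro m n k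
    rw [hS', hS', hS', hS']
    by_contra hcon
    push Not at hcon
    push_cast at hcon
    have m1 : p m ≤ p (m + k) := hmono.monotone (by omega)
    have m2 : p n ≤ p (n + k) := hmono.monotone (by omega)
    have hlen : p (m + k) - p m + 2 ≤ p (n + k) - p n := by omega
    obtain ⟨q1, q2⟩ := hpk m
    obtain ⟨q3, q4⟩ := hpk (n + k)
    have e1 := h.hS (p m - 1)
    rw [q2, Nat.sub_add_cancel q1] at e1
    have e2 := h.hS (p (n + k) - 1)
    rw [q4, Nat.sub_add_cancel q3] at e2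
    have e3 := hSp m
    have e4 := hSp n
    have e5 := hSp (m + k)
    have e6 := hSp (n + k)
    push_cast at e5 e6
    have hb := h.bal (p m - 1) (p n) (p (m + k) - p m + 1)
    rw [show p m - 1 + (p (m + k) - p m + 1) = p (m + k) by omega] at hb
    have hm := h.mono (show p n + (p (m + k) - p m + 1) ≤ p (n + k) - 1 by omega)
    omega
  · have h1 : Irrational (1 / α) := by
      rw [one_div]
      exact (irrational_inv_iff).2 h.irr
    exact_mod_cast h1.intCast_sub 2
  · obtain ⟨C, hC⟩ := h.disc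
    have hp := h.pos
    refine ⟨(C + |(S (p 0) : ℝ)|) / α + ((p 0 : ℕ) : ℝ), fun k => ?_⟩
    have h1 := hC (p k)
    rw [hSp k] at h1
    push_cast at h1
    have h2 : |(p k : ℝ) - k / α| ≤ (C + |(S (p 0) : ℝ)|) / α := by
      rw [le_div_iff₀ hp, ← abs_of_pos hp, ← abs_mul, abs_of_pos hp]
      have e : ((p k : ℝ) - k / α) * α = -((k : ℝ) + S (p 0) - p k * α) + S (p 0) := by
        field_simp
        ring
      rw [e]
      refine (abs_add_le _ _).trans ?_
      rw [abs_neg]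
      linarith
    have e : (S' k : ℝ) - k * (2 - 1 / α) = -((p k : ℝ) - k / α) + ((p 0 : ℕ) : ℝ) := by
      rw [hS' k]
      push_cast
      ring
    rw [e]
    refine (abs_add_le _ _).trans ?_
    rw [abs_neg, Nat.abs_cast]
    linarith

/-- the two desubstitutions -/
theorem LW.step (h : LW w S α) {e : ℤ} (he : e = 0 ∨ e = 1)
    (hty : ∀ n, w n = 1 - e → w (n + 1) = e) : ∃ (p : ℕ → ℕ) (S' : ℕ → ℤ) (α' : ℝ),
      (∀ k, 1 ≤ p k ∧ w (p k - 1) = e) ∧ (∀ k, w (p k) = e → p (k + 1) = p k + 1) ∧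
      (∀ k, w (p k) = 1 - e → p (k + 1) = p k + 2 ∧ w (p k + 1) = e) ∧
      LW (fun k => w (p k)) S' α' ∧ (e = 1 → 1 / (1 - α') = 1 / (1 - α) - 1) ∧
      (e = 0 → 1 / α' = 1 / α - 1) := by
  have h0 := h.pos
  have h1 := h.lt_one
  have key : ∀ β : ℝ, 0 < β → β < 1 → 1 / (1 - (2 - 1 / β)) = 1 / (1 - β) - 1 := by
    intro β hβ hβ1
    have e1 : 1 - (2 - 1 / β) = (1 - β) / β := by
      field_simp
      ring
    have e2 : (1 - β) ≠ 0 := by linarith
    rw [e1]
    field_simp
    ring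
  rcases he with he | he
  · subst he
    obtain ⟨p, S', q1, q2, q3, q4⟩ := h.compl.step1 (fun n hn => by
      have hn' : 1 - w n = 0 := hn
      have := hty n (by omega)
      show 1 - w (n + 1) = 1
      omega)
    refine ⟨p, fun n => n - S' n, 1 - (2 - 1 / (1 - α)), fun k => ⟨(q1 k).1, ?_⟩, fun k hk => ?_,
      fun k hk => ?_, ?_, fun h => absurd h (by norm_num), fun _ => ?_⟩
    · have : 1 - w (p k - 1) = 1 := (q1 k).2
      omega
    · exact q2 k (by show 1 - w (p k) = 1; omega)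
    · obtain ⟨r1, r2⟩ := q3 k (by show 1 - w (p k) = 0; omega)
      have r2' : 1 - w (p k + 1) = 1 := r2
      exact ⟨r1, by omega⟩
    · have e : (fun k => w (p k)) = (fun n => 1 - (1 - w (p n))) := by
        funext n
        ring
      rw [e]
      exact q4.compl
    · have := key (1 - α) (by linarith) (by linarith)
      rw [this]
      ring
  · subst he
    obtain ⟨p, S', q1, q2, q3, q4⟩ := h.step1 (fun n hn => hty n (by omega))
    exact ⟨p, S', 2 - 1 / α, q1, q2, fun k hk => q3 k (by omega), q4, fun _ => key α h0 h1,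
      fun h => absurd h (by norm_num)⟩

/-- one of the two squares of letters does not occur -/
theorem LW.type (h : LW w S α) : (∀ n, w n = 1 - 1 → w (n + 1) = 1) ∨
    ∀ n, w n = 1 - 0 → w (n + 1) = 0 := by
  by_contra hcon
  push Not at hcon
  obtain ⟨⟨m, hm1, hm2⟩, ⟨n, hn1, hn2⟩⟩ := hcon
  have hb := h.bal n m 2
  have e1 := h.hS m
  have e2 := h.hS (m + 1)
  have e3 := h.hS n
  have e4 := h.hS (n + 1)
  rw [show m + 1 + 1 = m + 2 by ring] at e2
  rw [show n + 1 + 1 = n + 2 by ring] at e4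
  rcases h.w01 (m + 1) with a1 | a1 <;> rcases h.w01 (n + 1) with a2 | a2 <;> omega

end

/-- the last `m` letters before the positions `k` and `l` agree -/
def Agr (W : ℕ → ℤ) (m k l : ℕ) : Prop := m ≤ k ∧ m ≤ l ∧ ∀ i < m, W (k - 1 - i) = W (l - 1 - i)

theorem Agr.mono {W : ℕ → ℤ} {m m' k l : ℕ} (h : Agr W m k l) (hm : m' ≤ m) : Agr W m' k l :=
  ⟨hm.trans h.1, hm.trans h.2.1, fun i hi => h.2.2 i (by omega)⟩

/-- level data -/
structure Lv {St : Type*} (W : ℕ → ℤ) (L : ℕ → St) where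
  j : ℕ
  w : ℕ → ℤ
  S : ℕ → ℤ
  α : ℝ
  M : ℤ → St → St
  P : ℕ → ℕ
  lw : LW w S α
  mono : StrictMono P
  hlet : ∀ k, W (P k) = w k
  st : ∀ k, L (P (k + 1)) = M (w k) (L (P k))
  inj : ∀ i, Function.Injective (M i)
  h1 : ∀ k l m, w k = w l → Agr W m (P k) (P l) → Agr W (m + 1) (P (k + 1)) (P (l + 1))
  h2 : ∀ k l, Agr W j (P k) (P l)

section
variable {St : Type*} {W : ℕ → ℤ} {L : ℕ → St}

/-- descendants -/
structure Lv.Le (d d' : Lv W L) : Prop where
  hj : d.j ≤ d'.j
  hP : ∀ k, ∃ i, k ≤ i ∧ d'.P k = d.P i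
  hM : ∀ T : Set St, (∀ i, i = 0 ∨ i = 1 → Set.MapsTo (d'.M i) T T) →
    ∀ i, i = 0 ∨ i = 1 → Set.MapsTo (d.M i) T T

theorem Lv.Le.refl (d : Lv W L) : d.Le d := ⟨le_rfl, fun k => ⟨k, le_rfl, rfl⟩, fun _ h => h⟩

theorem Lv.Le.trans {d d' d'' : Lv W L} (h : d.Le d') (h' : d'.Le d'') : d.Le d'' where
  hj := h.hj.trans h'.hj
  hP k := by
    obtain ⟨i, hi, e1⟩ := h'.hP k
    obtain ⟨i', hi', e2⟩ := h.hP i
    exact ⟨i', hi.trans hi', e1.trans e2⟩
  hM T hT := h.hM T (h'.hM T hT)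

theorem Lv.step [Finite St] (d : Lv W L) {e : ℤ} (he : e = 0 ∨ e = 1)
    (hty : ∀ n, d.w n = 1 - e → d.w (n + 1) = e) : ∃ d' : Lv W L, d.Le d' ∧ d'.j = d.j + 1 ∧
      (e = 1 → 1 / (1 - d'.α) = 1 / (1 - d.α) - 1) ∧ (e = 0 → 1 / d'.α = 1 / d.α - 1) ∧
      ∀ k, ∃ i, k ≤ i ∧ d.w i = e ∧ d'.P k = d.P (i + 1) := by
  classical
  obtain ⟨p, S', α', q1, q2, q3, q4, q5, q6⟩ := d.lw.step he hty
  have hmono : StrictMono p := by
    apply strictMono_nat_of_lt_succ
    intro k
    by_cases h1 : d.w (p k) = e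
    · rw [q2 k h1]; omega
    · have h2 : d.w (p k) = 1 - e := by
        rcases d.lw.w01 (p k) with h3 | h3 <;> omega
      rw [(q3 k h2).1]; omega
  have hpk : ∀ k, k + 1 ≤ p k := by
    intro k
    induction k with
    | zero => exact (q1 0).1
    | succ k ih =>
      have := hmono (show k < k + 1 by omega)
      omega
  let M' : ℤ → St → St := fun i => if i = e then d.M e else d.M e ∘ d.M i
  have hM1 : M' e = d.M e := if_pos rfl
  have hM2 : ∀ i, i ≠ e → M' i = d.M e ∘ d.M i := fun i hi => if_neg hi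
  let d' : Lv W L :=
    { j := d.j + 1
      w := fun k => d.w (p k)
      S := S'
      α := α'
      M := M'
      P := fun k => d.P (p k)
      lw := q4
      mono := d.mono.comp hmono
      hlet := fun k => d.hlet (p k)
      st := by
        intro k
        by_cases h1 : d.w (p k) = e
        · show L (d.P (p (k + 1))) = M' (d.w (p k)) (L (d.P (p k)))
          rw [q2 k h1, h1, hM1, d.st, h1]
        · have h2 : d.w (p k) = 1 - e := by
            rcases d.lw.w01 (p k) with h3 | h3 <;> omega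
          obtain ⟨r1, r2⟩ := q3 k h2
          show L (d.P (p (k + 1))) = M' (d.w (p k)) (L (d.P (p k)))
          rw [r1, hM2 _ h1, show p k + 2 = p k + 1 + 1 by ring, d.st, r2, d.st]
          rfl
      inj := by
        intro i
        by_cases h1 : i = e
        · rw [h1, hM1]
          exact d.inj e
        · rw [hM2 i h1]
          exact (d.inj e).comp (d.inj i)
      h1 := by
        intro k l m hw hA
        have h3 := d.h1 (p k) (p l) m hw hA
        show Agr W (m + 1) (d.P (p (k + 1))) (d.P (p (l + 1)))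
        by_cases h1 : d.w (p k) = e
        · rw [q2 k h1, q2 l (by rw [← hw]; exact h1)]
          exact h3
        · have h2 : d.w (p k) = 1 - e := by
            rcases d.lw.w01 (p k) with h3 | h3 <;> omega
          obtain ⟨r1, r2⟩ := q3 k h2
          obtain ⟨r3, r4⟩ := q3 l (by rw [← hw]; exact h2)
          rw [r1, r3]
          exact (d.h1 (p k + 1) (p l + 1) (m + 1) (by rw [r2, r4]) h3).mono (by omega)
      h2 := by
        intro k l
        have h3 := d.h1 (p k - 1) (p l - 1) d.j (by rw [(q1 k).2, (q1 l).2]) (d.h2 _ _)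
        rw [Nat.sub_add_cancel (q1 k).1, Nat.sub_add_cancel (q1 l).1] at h3
        exact h3 }
  refine ⟨d', ⟨Nat.le_succ _, fun k => ⟨p k, by have := hpk k; omega, rfl⟩, ?_⟩, rfl, q5, q6, ?_⟩
  · intro T hT
    have hTe : Set.MapsTo (d.M e) T T := by
      have := hT e he
      rw [show d'.M = M' from rfl, hM1] at this
      exact this
    intro i hi
    by_cases h1 : i = e
    · rw [h1]
      exact hTe
    · intro s hs
      have h2 := hT i hi hs
      rw [show d'.M = M' from rfl, hM2 i h1] at h2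
      have hfin : T.Finite := Set.toFinite T
      have hsurj : d.M e '' T = T := by
        apply Set.eq_of_subset_of_ncard_le hTe.image_subset _ hfin
        rw [Set.ncard_image_of_injective T (d.inj e)]
      rw [← hsurj] at h2
      obtain ⟨t, ht, ht2⟩ := h2
      have := d.inj e ht2
      rw [← this]
      exact ht
  · intro k
    refine ⟨p k - 1, by have := hpk k; omega, (q1 k).2, ?_⟩
    show d.P (p k) = d.P (p k - 1 + 1)
    rw [Nat.sub_add_cancel (q1 k).1]

/-- there is a descendant of each type -/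
theorem Lv.exists_type1 [Finite St] (N : ℕ) : ∀ d : Lv W L, 1 / d.α < N →
    ∃ d' : Lv W L, d.Le d' ∧ ∀ n, d'.w n = 1 - 1 → d'.w (n + 1) = 1 := by
  induction N with
  | zero =>
    intro d hd
    have := d.lw.pos
    have : 0 < 1 / d.α := by positivity
    push_cast at hd
    linarith
  | succ N ih =>
    intro d hd
    rcases d.lw.type with h | h
    · exact ⟨d, Lv.Le.refl d, h⟩
    · obtain ⟨d', h1, -, -, h3, -⟩ := d.step (Or.inl rfl) h
      obtain ⟨d'', h4, h5⟩ := ih d' (by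
        rw [h3 rfl]
        push_cast at hd
        linarith)
      exact ⟨d'', h1.trans h4, h5⟩

theorem Lv.exists_type0 [Finite St] (N : ℕ) : ∀ d : Lv W L, 1 / (1 - d.α) < N →
    ∃ d' : Lv W L, d.Le d' ∧ ∀ n, d'.w n = 1 - 0 → d'.w (n + 1) = 0 := by
  induction N with
  | zero =>
    intro d hd
    have := d.lw.lt_one
    have h1 : 0 < 1 - d.α := by linarith
    have : 0 < 1 / (1 - d.α) := by positivity
    push_cast at hd
    linarith
  | succ N ih =>
    intro d hd
    rcases d.lw.type with h | h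
    · obtain ⟨d', h1, -, h3, -, -⟩ := d.step (Or.inr rfl) h
      obtain ⟨d'', h4, h5⟩ := ih d' (by
        rw [h3 rfl]
        push_cast at hd
        linarith)
      exact ⟨d'', h1.trans h4, h5⟩
    · exact ⟨d, Lv.Le.refl d, h⟩

theorem Lv.exists_type [Finite St] (d : Lv W L) {e : ℤ} (he : e = 0 ∨ e = 1) :
    ∃ d' : Lv W L, d.Le d' ∧ ∀ n, d'.w n = 1 - e → d'.w (n + 1) = e := by
  rcases he with he | he
  · subst he
    obtain ⟨N, hN⟩ := exists_nat_gt (1 / (1 - d.α))
    exact Lv.exists_type0 N d hN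
  · subst he
    obtain ⟨N, hN⟩ := exists_nat_gt (1 / d.α)
    exact Lv.exists_type1 N d hN

/-- states visited infinitely often -/
def Lv.inf (d : Lv W L) : Set St := {s | ∀ K, ∃ k, K ≤ k ∧ L (d.P k) = s}

/-- states visited infinitely often before the letter `e` -/
def Lv.infE (d : Lv W L) (e : ℤ) : Set St := {s | ∀ K, ∃ k, K ≤ k ∧ d.w k = e ∧ L (d.P k) = s}

theorem Lv.infE_subset (d : Lv W L) (e : ℤ) : d.infE e ⊆ d.inf := by
  intro s hs K
  obtain ⟨k, h1, -, h2⟩ := hs K
  exact ⟨k, h1, h2⟩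

theorem Lv.Le.inf_subset {d d' : Lv W L} (h : d.Le d') : d'.inf ⊆ d.inf := by
  intro s hs K
  obtain ⟨k, h1, h2⟩ := hs K
  obtain ⟨i, hi, e⟩ := h.hP k
  exact ⟨i, h1.trans hi, by rw [← e]; exact h2⟩

theorem Lv.Le.infE_subset {d d' : Lv W L} (h : d.Le d') (e : ℤ) : d'.infE e ⊆ d.infE e := by
  intro s hs K
  obtain ⟨k, h1, h2, h3⟩ := hs K
  obtain ⟨i, hi, e1⟩ := h.hP k
  refine ⟨i, h1.trans hi, ?_, by rw [← e1]; exact h3⟩
  rw [← d.hlet, ← e1, d'.hlet]
  exact h2

/-- **Branching states.** -/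
theorem symb [Finite St] {S : ℕ → ℤ} {α : ℝ} (h : LW W S α) (M : ℤ → St → St)
    (inj : ∀ i, Function.Injective (M i)) (st : ∀ k, L (k + 1) = M (W k) (L k)) :
    ∃ T : Set St, T.Nonempty ∧ (∀ i, i = 0 ∨ i = 1 → Set.MapsTo (M i) T T) ∧ ∀ s ∈ T, ∀ m,
      ∃ k l, Agr W m k l ∧ W k = 0 ∧ W l = 1 ∧ L k = s ∧ L l = s := by
  classical
  let base : Lv W L :=
    { j := 0
      w := W
      S := S
      α := α
      M := M
      P := fun k => k
      lw := h
      mono := strictMono_id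
      hlet := fun _ => rfl
      st := st
      inj := inj
      h1 := by
        intro k l m hw hA
        refine ⟨by have := hA.1; omega, by have := hA.2.1; omega, fun i hi => ?_⟩
        rcases Nat.eq_zero_or_pos i with h0 | h0
        · subst h0
          simpa using hw
        · have := hA.2.2 (i - 1) (by omega)
          rw [show k + 1 - 1 - i = k - 1 - (i - 1) by omega,
            show l + 1 - 1 - i = l - 1 - (i - 1) by omega]
          exact this
      h2 := fun k l => ⟨Nat.zero_le _, Nat.zero_le _, fun i hi => absurd hi (by omega)⟩ }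
  have hex : ∃ n : ℕ, ∃ d : Lv W L, base.Le d ∧ d.inf.ncard = n := ⟨_, base, Lv.Le.refl _, rfl⟩
  obtain ⟨d₀, hb, hd₀⟩ := Nat.find_spec hex
  have hmin : ∀ d : Lv W L, d₀.Le d → d.inf = d₀.inf := by
    intro d hd
    apply Set.eq_of_subset_of_ncard_le hd.inf_subset _ (Set.toFinite _)
    rw [hd₀]
    exact Nat.find_min' hex ⟨d, hb.trans hd, rfl⟩
  -- the letter `e` at levels of type `e`
  have hty : ∀ d : Lv W L, d₀.Le d → ∀ e : ℤ, e = 0 ∨ e = 1 →
      (∀ n, d.w n = 1 - e → d.w (n + 1) = e) → d.infE e = d₀.inf := by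
    intro d hd e he hte
    obtain ⟨d', h1, -, -, -, h2⟩ := d.step he hte
    have h3 : d'.inf ⊆ d.M e '' d.infE e := by
      intro s hs
      have hpos : ∀ K, ∃ i, K ≤ i ∧ d.w i = e ∧ d.M e (L (d.P i)) = s := by
        intro K
        obtain ⟨k, k1, k2⟩ := hs K
        obtain ⟨i, i1, i2, i3⟩ := h2 k
        refine ⟨i, k1.trans i1, i2, ?_⟩
        rw [← k2, i3, d.st, i2]
      obtain ⟨i₀, -, -, e0⟩ := hpos 0
      refine ⟨L (d.P i₀), fun K => ?_, e0⟩
      obtain ⟨i, i1, i2, i3⟩ := hpos K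
      exact ⟨i, i1, i2, d.inj e (i3.trans e0.symm)⟩
    rw [← hmin d hd]
    apply Set.eq_of_subset_of_ncard_le (d.infE_subset e) _ (Set.toFinite _)
    have h4 := Set.ncard_le_ncard h3 (Set.toFinite _)
    rw [Set.ncard_image_of_injective _ (d.inj e), hmin d' (hd.trans h1), ← hmin d hd] at h4
    exact h4
  have hall : ∀ d : Lv W L, d₀.Le d → ∀ e : ℤ, e = 0 ∨ e = 1 → d₀.inf ⊆ d.infE e := by
    intro d hd e he
    obtain ⟨d', h1, h2⟩ := d.exists_type he
    rw [← hty d' (hd.trans h1) e he h2]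
    exact h1.infE_subset e
  have hdeep : ∀ m : ℕ, ∃ d : Lv W L, d₀.Le d ∧ m ≤ d.j := by
    intro m
    induction m with
    | zero => exact ⟨d₀, Lv.Le.refl _, Nat.zero_le _⟩
    | succ m ih =>
      obtain ⟨d, h1, h2⟩ := ih
      rcases d.lw.type with h | h
      · obtain ⟨d', h3, h4, -⟩ := d.step (Or.inr rfl) h
        exact ⟨d', h1.trans h3, by omega⟩
      · obtain ⟨d', h3, h4, -⟩ := d.step (Or.inl rfl) h
        exact ⟨d', h1.trans h3, by omega⟩
  refine ⟨d₀.inf, ?_, ?_, ?_⟩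
  · obtain ⟨s, hs⟩ := Finite.exists_infinite_fiber (fun k => L (d₀.P k))
    have hs' : {k | L (d₀.P k) = s}.Infinite := Set.infinite_coe_iff.1 hs
    refine ⟨s, fun K => ?_⟩
    obtain ⟨k, hk, hk2⟩ := hs'.exists_gt K
    exact ⟨k, hk2.le, hk⟩
  · apply hb.hM
    intro i hi s hs K
    obtain ⟨k, k1, k2, k3⟩ := hall d₀ (Lv.Le.refl _) i hi hs K
    refine ⟨k + 1, by omega, ?_⟩
    rw [d₀.st, k2, k3]
  · intro s hs m
    obtain ⟨d, h1, h2⟩ := hdeep m
    obtain ⟨k, -, k2, k3⟩ := hall d h1 0 (Or.inl rfl) hs 0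
    obtain ⟨l, -, l2, l3⟩ := hall d h1 1 (Or.inr rfl) hs 0
    exact ⟨d.P k, d.P l, (d.h2 k l).mono h2, by rw [d.hlet, k2], by rw [d.hlet, l2], k3, l3⟩

end

end Pool.Agent.L3
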