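import Pool.Agent.Work.MP_5e120e_nt.Lattice
import Pool.Agent.Work.MP_5e120e_nt.Fin.Symb

/-! # Limits of chains, and the limit pair at a branching state -/

namespace Pool.Agent.L3

open Filter Topology

section
variable {x y : ℤ → ℝ} {a : ℤ → ℤ} {x' y' : ℤ → ℝ} {a' : ℤ → ℤ}

theorem Ch.shift (h : Ch x y a) (κ : ℤ) :
    Ch (fun k => x (κ + k)) (fun k => y (κ + k)) (fun k => a (κ + k)) where
  hx1 k := h.hx1 _
  hy1 k := h.hy1 _
  hx k := by
    have := h.hx (κ + k)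
    rw [add_assoc] at this
    exact this
  hy k := by
    have := h.hy (κ + k)
    rw [add_assoc] at this
    exact this

theorem Ch.x_le (h : Ch x y a) (hl : ∀ k, x k + 1 / y k ≤ 3) (k : ℤ) : x k ≤ 3 := by
  have h1 := (h.inv_y k).1
  have h2 := hl k
  linarith

theorem Ch.y_le (h : Ch x y a) (hl : ∀ k, x k + 1 / y k ≤ 3) (k : ℤ) : y k ≤ 3 := by
  have h1 := (h.inv_x k).1
  have h2 := h.rev_le hl (-k)
  rw [neg_neg] at h2
  linarith

/-- limits of chains -/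
theorem lim_chain {x y : ℕ → ℤ → ℝ} {a : ℕ → ℤ → ℤ} (h : ∀ m, Ch (x m) (y m) (a m))
    (hl : ∀ m k, x m k + 1 / y m k ≤ 3) : ∃ φ : ℕ → ℕ, StrictMono φ ∧
      ∃ (X Y : ℤ → ℝ) (A : ℤ → ℤ), Ch X Y A ∧ (∀ k, X k + 1 / Y k ≤ 3) ∧
      (∀ k, Tendsto (fun m => x (φ m) k) atTop (𝓝 (X k))) ∧
      (∀ k, Tendsto (fun m => y (φ m) k) atTop (𝓝 (Y k))) ∧
      ∀ k, ∀ᶠ m in atTop, a (φ m) k = A k := by
  set Kc : Set (ℤ → ℝ × ℝ) := Set.pi Set.univ
    (fun _ => Set.Icc (1 : ℝ) 3 ×ˢ Set.Icc (1 : ℝ) 3) with hKc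
  have hcomp : IsCompact Kc := isCompact_univ_pi (fun _ => isCompact_Icc.prod isCompact_Icc)
  obtain ⟨Z, hZ, φ, hφ, hlim⟩ := hcomp.tendsto_subseq (x := fun m k => (x m k, y m k))
    (fun m k _ => ⟨⟨((h m).hx1 k).le, (h m).x_le (hl m) k⟩,
      ⟨((h m).hy1 k).le, (h m).y_le (hl m) k⟩⟩)
  have hlim' : ∀ k, Tendsto (fun m => (x (φ m) k, y (φ m) k)) atTop (𝓝 (Z k)) :=
    fun k => (tendsto_pi_nhds.1 hlim) k
  have hX : ∀ k, Tendsto (fun m => x (φ m) k) atTop (𝓝 (Z k).1) :=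
    fun k => (continuous_fst.tendsto _).comp (hlim' k)
  have hY : ∀ k, Tendsto (fun m => y (φ m) k) atTop (𝓝 (Z k).2) :=
    fun k => (continuous_snd.tendsto _).comp (hlim' k)
  have hX1 : ∀ k, 1 ≤ (Z k).1 ∧ (Z k).1 ≤ 3 := fun k => (hZ k (Set.mem_univ k)).1
  have hY1 : ∀ k, 1 ≤ (Z k).2 ∧ (Z k).2 ≤ 3 := fun k => (hZ k (Set.mem_univ k)).2
  have hdig : ∀ k, Tendsto (fun m => (a (φ m) k : ℝ)) atTop (𝓝 ((Z k).1 - 1 / (Z (k + 1)).1)) := by
    intro k
    have h1 : Tendsto (fun m => x (φ m) k - 1 / x (φ m) (k + 1)) atTop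
        (𝓝 ((Z k).1 - 1 / (Z (k + 1)).1)) := by
      apply (hX k).sub
      apply Tendsto.div tendsto_const_nhds (hX (k + 1))
      have := (hX1 (k + 1)).1
      linarith
    refine h1.congr (fun m => ?_)
    have := (h (φ m)).hx k
    linarith
  have hA : ∀ k, ∃ A : ℤ, ∀ᶠ m in atTop, a (φ m) k = A := by
    intro k
    have h1 := Metric.tendsto_atTop.1 (hdig k) (1 / 3) (by norm_num)
    obtain ⟨N, hN⟩ := h1
    refine ⟨a (φ N) k, ?_⟩
    filter_upwards [eventually_ge_atTop N] with m hm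
    have e1 := hN m hm
    have e2 := hN N le_rfl
    rw [Real.dist_eq, abs_lt] at e1 e2
    have e3 : ((a (φ m) k - a (φ N) k : ℤ) : ℝ) < 1 := by
      push_cast
      linarith
    have e4 : (-1 : ℝ) < ((a (φ m) k - a (φ N) k : ℤ) : ℝ) := by
      push_cast
      linarith
    have e5 : a (φ m) k - a (φ N) k < 1 := by exact_mod_cast e3
    have e6 : -1 < a (φ m) k - a (φ N) k := by exact_mod_cast e4
    omega
  choose A hA using hA
  have hAv : ∀ k, (A k : ℝ) = (Z k).1 - 1 / (Z (k + 1)).1 := by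
    intro k
    refine tendsto_nhds_unique ?_ (hdig k)
    refine tendsto_const_nhds.congr' ?_
    filter_upwards [hA k] with m hm
    rw [hm]
  have hA1 : ∀ k, (1 : ℝ) ≤ A k := by
    intro k
    obtain ⟨m, hm⟩ := (hA k).exists
    have := (h (φ m)).digit (hl (φ m)) k
    rw [hm] at this
    have h2 : (1 : ℤ) ≤ A k := by omega
    exact_mod_cast h2
  have hx : ∀ k, (Z k).1 = A k + 1 / (Z (k + 1)).1 := by
    intro k
    have := hAv k
    linarith
  have hy : ∀ k, (Z (k + 1)).2 = A k + 1 / (Z k).2 := by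
    intro k
    have h1 : Tendsto (fun m => (a (φ m) k : ℝ) + 1 / y (φ m) k) atTop
        (𝓝 ((A k : ℝ) + 1 / (Z k).2)) := by
      apply Tendsto.add
      · rw [hAv k]
        exact hdig k
      · apply Tendsto.div tendsto_const_nhds (hY k)
        have := (hY1 k).1
        linarith
    refine tendsto_nhds_unique (hY (k + 1)) (h1.congr (fun m => ?_))
    exact ((h (φ m)).hy k).symm
  refine ⟨φ, hφ, fun k => (Z k).1, fun k => (Z k).2, A, ⟨?_, ?_, hx, hy⟩, ?_, hX, hY, hA⟩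
  · intro k
    show 1 < (Z k).1
    rw [hx k]
    have h1 := hX1 (k + 1)
    have : 0 < 1 / (Z (k + 1)).1 := by
      have : 0 < (Z (k + 1)).1 := by linarith
      positivity
    linarith [hA1 k]
  · intro k
    show 1 < (Z k).2
    have h0 := hy (k - 1)
    rw [sub_add_cancel] at h0
    rw [h0]
    have h1 := hY1 (k - 1)
    have : 0 < 1 / (Z (k - 1)).2 := by
      have : 0 < (Z (k - 1)).2 := by linarith
      positivity
    linarith [hA1 (k - 1)]
  · intro k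
    have h1 : Tendsto (fun m => x (φ m) k + 1 / y (φ m) k) atTop
        (𝓝 ((Z k).1 + 1 / (Z k).2)) := by
      apply (hX k).add
      apply Tendsto.div tendsto_const_nhds (hY k)
      have := (hY1 k).1
      linarith
    exact le_of_tendsto' h1 (fun m => hl (φ m) k)

/-- the pair of chains which branch at the digit `0`: the vector `(2, 1)` -/
theorem core21 (h : Ch x y a) (hl : ∀ k, x k + 1 / y k ≤ 3) (h' : Ch x' y' a')
    (hl' : ∀ k, x' k + 1 / y' k ≤ 3) {k₀ K : ℤ} (hk₀ : a (k₀ - 1) ≠ a k₀)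
    (hk₀' : a' (k₀ - 1) ≠ a' k₀) (hK : 0 = k₀ + 2 * K) (hcom : ∀ k, k < 0 → a k = a' k)
    {S S' : ℤ → ℤ} (hS : IsH S (wd a k₀)) (hS' : IsH S' (wd a' k₀)) {α : ℝ} (hα : Slope S α)
    (hα' : Slope S' α) (hirr : Irrational α) (h0 : wd a k₀ K = 0) (h1 : wd a' k₀ K = 1) :
    |Qf (x 0) (y 0) (2, 1)| = 1 / 3 ∧ Qf (x' 0) (y' 0) (2, 1) = -Qf (x 0) (y 0) (2, 1) := by
  obtain ⟨e, hf⟩ := exists_frames a
  obtain ⟨e', hf'⟩ := exists_frames a'
  have hw : ∀ n, n < K → wd a k₀ n = wd a' k₀ n := by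
    intro n hn
    unfold wd
    rw [hcom _ (by omega)]
  obtain ⟨E1, E2, o1, o2⟩ := pair_irr hS hS' hα hα' hirr K hw h0 h1
  have v1 := (h.eqAt hl hk₀ E1).1 o1
  have v2 := (h'.eqAt hl' hk₀' E2).2 o2
  rw [show k₀ + 2 * (K + 1) = 2 by omega] at v1
  rw [show k₀ + 2 * (K + 1) - 1 = 1 by omega] at v2
  have a1 : a 0 = 1 := by
    unfold wd at h0
    rw [← hK] at h0
    omega
  have a2 : a 1 = 1 := by
    have := h.align hl hk₀ K
    rw [← hK, zero_add] at this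
    rw [this, a1]
  have a3 : a' 0 = 2 := by
    unfold wd at h1
    rw [← hK] at h1
    omega
  have f1 := hf.hs 0
  have f2 := hf.hs 1
  have f3 := hf'.hs 0
  rw [a1, zero_add, zero_sub, hf.h0, hf.h1] at f1
  rw [a2, show (1 : ℤ) + 1 = 2 by norm_num, show (1 : ℤ) - 1 = 0 by norm_num, f1, hf.h0] at f2
  rw [a3, zero_add, zero_sub, hf'.h0, hf'.h1] at f3
  have g1 : e 1 = (1, 1) := by rw [f1]; ext <;> simp
  have g2 : e 2 = (2, 1) := by rw [f2]; ext <;> simp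
  have g3 : e' 1 = (2, 1) := by rw [f3]; ext <;> simp
  have Q1 := h.Qe hf 2
  have Q2 := h'.Qe hf' 1
  rw [v1, show (2 : ℤ) - 1 = 1 by norm_num, g1, g2] at Q1
  rw [v2, show (1 : ℤ) - 1 = 0 by norm_num, g3, hf'.h0] at Q2
  simp only [dt] at Q1 Q2
  norm_num at Q1 Q2
  have q1 : Qf (x 0) (y 0) (2, 1) = 1 / 3 := by linarith
  have q2 : Qf (x' 0) (y' 0) (2, 1) = -(1 / 3) := by linarith
  rw [q1, q2]
  exact ⟨by norm_num, rfl⟩

/-- heights of limit words -/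
theorem lim_slope {ω ω' : ℤ → ℤ} {S S' : ℤ → ℤ} (hS : IsH S ω) (hS' : IsH S' ω') {α : ℝ}
    (hα : Slope S α) {t : ℕ → ℤ} (ht : ∀ j, ∀ᶠ m in atTop, ω' j = ω (t m + j)) : Slope S' α := by
  have key : ∀ (m : ℤ) (k : ℕ), ∀ᶠ M in atTop, S' (m + k) - S' m = S (t M + m + k) - S (t M + m) := by
    intro m k
    induction k with
    | zero =>
      filter_upwards with M
      simp
    | succ k ih =>
      filter_upwards [ih, ht (m + k)] with M h1 h2
      have e1 := hS' (m + k)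
      have e2 := hS (t M + m + k)
      rw [h2, ← add_assoc] at e1
      push_cast
      rw [← add_assoc, ← add_assoc]
      linarith
  intro m k
  obtain ⟨M, hM⟩ := (key m k).exists
  have h1 := hα (t M + m) k
  have h2 : ((S' (m + k) : ℝ) - S' m) = (S (t M + m + k) : ℝ) - S (t M + m) := by exact_mod_cast hM
  rw [h2]
  exact h1

/-- the limit pair at a branching state -/
theorem branch_limit (h : Ch x y a) (hl : ∀ k, x k + 1 / y k ≤ 3) {k₀ : ℤ}
    (hk₀ : a (k₀ - 1) ≠ a k₀) {S : ℤ → ℤ} (hS : IsH S (wd a k₀)) {α : ℝ} (hα : Slope S α)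
    (hirr : Irrational α) {kk ll : ℕ → ℕ} (hagr : ∀ m, Agr (fun n : ℕ => wd a k₀ n) m (kk m) (ll m))
    (hk : ∀ m, wd a k₀ (kk m) = 0) (hl0 : ∀ m, wd a k₀ (ll m) = 1) :
    ∃ (φ : ℕ → ℕ) (X₁ X₂ Y : ℝ), StrictMono φ ∧ 1 < X₁ ∧ 1 < X₂ ∧ 1 < Y ∧ X₁ ≠ X₂ ∧
      Tendsto (fun m => x (k₀ + 2 * kk (φ m))) atTop (𝓝 X₁) ∧
      Tendsto (fun m => y (k₀ + 2 * kk (φ m))) atTop (𝓝 Y) ∧
      Tendsto (fun m => x (k₀ + 2 * ll (φ m))) atTop (𝓝 X₂) ∧
      Tendsto (fun m => y (k₀ + 2 * ll (φ m))) atTop (𝓝 Y) ∧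
      |Qf X₁ Y (2, 1)| = 1 / 3 ∧ Qf X₂ Y (2, 1) = -Qf X₁ Y (2, 1) := by
  obtain ⟨φ₁, hφ₁, X1, Y1, A1, c1, l1, tx1, ty1, ta1⟩ :=
    lim_chain (fun m => h.shift (k₀ + 2 * kk m)) (fun m k => hl (k₀ + 2 * kk m + k))
  obtain ⟨φ₂, hφ₂, X2, Y2, A2, c2, l2, tx2, ty2, ta2⟩ :=
    lim_chain (fun m => h.shift (k₀ + 2 * ll (φ₁ m))) (fun m k => hl (k₀ + 2 * ll (φ₁ m) + k))
  set φ : ℕ → ℕ := fun m => φ₁ (φ₂ m) with hφd
  have hφ : StrictMono φ := hφ₁.comp hφ₂
  have hge : ∀ m, m ≤ φ m := fun m => hφ.le_apply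
  have ux1 : ∀ k, Tendsto (fun m => x (k₀ + 2 * kk (φ m) + k)) atTop (𝓝 (X1 k)) :=
    fun k => (tx1 k).comp hφ₂.tendsto_atTop
  have uy1 : ∀ k, Tendsto (fun m => y (k₀ + 2 * kk (φ m) + k)) atTop (𝓝 (Y1 k)) :=
    fun k => (ty1 k).comp hφ₂.tendsto_atTop
  have ua1 : ∀ k, ∀ᶠ m in atTop, a (k₀ + 2 * kk (φ m) + k) = A1 k :=
    fun k => hφ₂.tendsto_atTop.eventually (ta1 k)
  have ux2 : ∀ k, Tendsto (fun m => x (k₀ + 2 * ll (φ m) + k)) atTop (𝓝 (X2 k)) := tx2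
  have uy2 : ∀ k, Tendsto (fun m => y (k₀ + 2 * ll (φ m) + k)) atTop (𝓝 (Y2 k)) := ty2
  have ua2 : ∀ k, ∀ᶠ m in atTop, a (k₀ + 2 * ll (φ m) + k) = A2 k := ta2
  have hd := h.wd_digit hl hk₀
  -- common digits to the left
  have hcom : ∀ k, k < 0 → A1 k = A2 k := by
    intro k hk0
    obtain ⟨i, hi⟩ := Int.eq_ofNat_of_zero_le (show 0 ≤ -(k / 2) - 1 by omega)
    obtain ⟨m, ⟨m1, m2⟩, m3⟩ := (((ua1 k).and (ua2 k)).and (eventually_ge_atTop (i + 1))).exists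
    have m4 := hge m
    obtain ⟨b1, b2, b3⟩ := hagr (φ m)
    have b4 := b3 i (by omega)
    simp only at b4
    rw [← m1, ← m2, show k₀ + 2 * (kk (φ m) : ℤ) + k = k₀ + (2 * kk (φ m) + k) by ring,
      show k₀ + 2 * (ll (φ m) : ℤ) + k = k₀ + (2 * ll (φ m) + k) by ring, hd, hd]
    rw [show (2 * (kk (φ m) : ℤ) + k) / 2 = ((kk (φ m) - 1 - i : ℕ) : ℤ) by omega,
      show (2 * (ll (φ m) : ℤ) + k) / 2 = ((ll (φ m) - 1 - i : ℕ) : ℤ) by omega, b4]
  have hA10 : A1 0 = 1 := by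
    obtain ⟨m, hm⟩ := (ua1 0).exists
    have h1 := hk (φ m)
    unfold wd at h1
    rw [add_zero] at hm
    omega
  have hA20 : A2 0 = 2 := by
    obtain ⟨m, hm⟩ := (ua2 0).exists
    have h1 := hl0 (φ m)
    unfold wd at h1
    rw [add_zero] at hm
    omega
  have hY : Y1 0 = Y2 0 := by
    have e1 := c1.left 0
    have e2 := c2.left 0
    have := cf_eq e1.1 e2.1 e1.2 e2.2 (by
      intro i
      exact hcom _ (by omega))
    simpa using this
  have hX : X1 0 ≠ X2 0 := by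
    have e1 := c1.hx 0
    have e2 := c2.hx 0
    rw [hA10] at e1
    rw [hA20] at e2
    have i1 := c1.inv_x (0 + 1)
    have i2 := c2.inv_x (0 + 1)
    push_cast at e1 e2
    intro h0
    linarith [i1.2, i2.1]
  -- the limit words
  have hw1 : ∀ j, ∀ᶠ m in atTop, wd A1 0 j = wd a k₀ ((kk (φ m) : ℤ) + j) := by
    intro j
    filter_upwards [ua1 (0 + 2 * j)] with m hm
    unfold wd
    rw [← hm]
    congr 2
    ring
  have hw2 : ∀ j, ∀ᶠ m in atTop, wd A2 0 j = wd a k₀ ((ll (φ m) : ℤ) + j) := by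
    intro j
    filter_upwards [ua2 (0 + 2 * j)] with m hm
    unfold wd
    rw [← hm]
    congr 2
    ring
  obtain ⟨S1, hS1, -⟩ := exists_height (wd A1 0)
  obtain ⟨S2, hS2, -⟩ := exists_height (wd A2 0)
  have hα1 := lim_slope hS hS1 hα hw1
  have hα2 := lim_slope hS hS2 hα hw2
  have hal1 : ∀ j, A1 (2 * j + 1) = A1 (2 * j) := by
    intro j
    obtain ⟨m, m1, m2⟩ := ((ua1 (2 * j + 1)).and (ua1 (2 * j))).exists
    rw [← m1, ← m2]
    have := h.align hl hk₀ (kk (φ m) + j)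
    rw [show k₀ + 2 * ((kk (φ m) : ℤ) + j) = k₀ + 2 * kk (φ m) + 2 * j by ring] at this
    rw [← this]
    congr 1
    ring
  -- a boundary to the left
  have hbd : ∃ j₀ : ℤ, j₀ < 0 ∧ wd A1 0 (j₀ - 1) ≠ wd A1 0 j₀ := by
    by_contra hcon
    push Not at hcon
    have hc : ∀ i : ℕ, wd A1 0 (-1 - i) = wd A1 0 (-1) := by
      intro i
      induction i with
      | zero => simp
      | succ i ih =>
        rw [← ih]
        have := hcon (-1 - i) (by omega)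
        rw [← this]
        push_cast
        congr 1
        ring
    have := slope_const hS1 hα1 (n₀ := 0) (c := wd A1 0 (-1)) (fun n hn => by
      have := hc (-1 - n).toNat
      rw [show -1 - (((-1 - n).toNat : ℕ) : ℤ) = n by omega] at this
      exact this)
    rw [this] at hirr
    exact hirr.ne_int _ rfl
  obtain ⟨j₀, hj₀, hbj⟩ := hbd
  have hb1 : A1 (2 * j₀ - 1) ≠ A1 (2 * j₀) := by
    have := hal1 (j₀ - 1)
    rw [show 2 * (j₀ - 1) + 1 = 2 * j₀ - 1 by ring] at this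
    rw [this]
    unfold wd at hbj
    rw [zero_add, zero_add] at hbj
    intro h0
    apply hbj
    rw [h0]
  have hb2 : A2 (2 * j₀ - 1) ≠ A2 (2 * j₀) := by
    rw [← hcom _ (by omega), ← hcom _ (by omega)]
    exact hb1
  have hsh : ∀ (A : ℤ → ℤ) (n : ℤ), wd A (2 * j₀) n = wd A 0 (j₀ + n) := by
    intro A n
    unfold wd
    congr 2
    ring
  have hHs : ∀ {A S : ℤ → ℤ}, IsH S (wd A 0) → IsH (fun n => S (j₀ + n)) (wd A (2 * j₀)) := by
    intro A S hH n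
    show S (j₀ + (n + 1)) = S (j₀ + n) + wd A (2 * j₀) n
    rw [hsh, ← hH (j₀ + n), add_assoc]
  have hSs : ∀ {S : ℤ → ℤ}, Slope S α → Slope (fun n => S (j₀ + n)) α := by
    intro S hH m k
    have := hH (j₀ + m) k
    rw [add_assoc] at this
    exact this
  have hfin := core21 c1 l1 c2 l2 (k₀ := 2 * j₀) (K := -j₀) hb1 hb2 (by ring) hcom (hHs hS1)
    (hHs hS2) (hSs hα1) (hSs hα2) hirr
    (by unfold wd; rw [show 2 * j₀ + 2 * -j₀ = 0 by ring, hA10]; norm_num)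
    (by unfold wd; rw [show 2 * j₀ + 2 * -j₀ = 0 by ring, hA20]; norm_num)
  refine ⟨φ, X1 0, X2 0, Y1 0, hφ, c1.hx1 0, c2.hx1 0, c1.hy1 0, hX, ?_, ?_, ?_, ?_, hfin.1, ?_⟩
  · have := ux1 0
    simp only [add_zero] at this
    exact this
  · have := uy1 0
    simp only [add_zero] at this
    exact this
  · have := ux2 0
    simp only [add_zero] at this
    exact this
  · have := uy2 0
    simp only [add_zero] at this
    rw [hY]
    exact this
  · have := hfin.2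
    rw [← hY] at this
    exact this

end

end Pool.Agent.L3
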