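import Pool.Agent.Work.MP_5e120e_nt.Ker
import Pool.Agent.Work.MP_5e120e_nt.Fin.LimCh

/-! # Leaves of irrational slope: no proper primitive sublattice -/

namespace Pool.Agent.L3

open Filter Topology

section
variable {x y : ℤ → ℝ} {a : ℤ → ℤ}

/-- the form read in the frame `k` -/
theorem Ch.Qf_frame (h : Ch x y a) {e : ℤ → ℤ × ℤ} (hf : Fr a e) (k : ℤ) (w : ℤ × ℤ) :
    |Qf (x k) (y k) w| = |Qf (x 0) (y 0) (w.1 * (e k).1 + w.2 * (e (k - 1)).1,
      w.1 * (e k).2 + w.2 * (e (k - 1)).2)| := by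
  have h1 := h.mu hf k
  have h2 := h.nu hf k
  have hx0 : 0 < x 0 := by linarith [h.hx1 0]
  have hy0 : 0 < y 0 := by linarith [h.hy1 0]
  have hxk : 0 < x k := by linarith [h.hx1 k]
  have hyk : 0 < y k := by linarith [h.hy1 k]
  have h3 : x 0 * y 0 + 1 ≠ 0 := by positivity
  have h3' : x k * y k + 1 ≠ 0 := by positivity
  set m := ((e k).1 : ℝ) - x 0 * (e k).2 with hm
  set n := y 0 * ((e (k - 1)).1 : ℝ) + (e (k - 1)).2 with hn
  have h5 : ((dt (e k) (e (k - 1)) : ℤ) : ℝ) * (x 0 * y 0 + 1) = m * n * (x k * y k + 1) := by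
    have e1 : ((dt (e k) (e (k - 1)) : ℤ) : ℝ) * (x 0 * y 0 + 1) =
        m * n - (((e (k - 1)).1 : ℝ) - x 0 * (e (k - 1)).2) * (y 0 * (e k).1 + (e k).2) := by
      rw [hm, hn]
      unfold dt
      push_cast
      ring
    rw [e1, h1, h2]
    ring
  have h6 : Qf (x 0) (y 0) (w.1 * (e k).1 + w.2 * (e (k - 1)).1,
      w.1 * (e k).2 + w.2 * (e (k - 1)).2) = ((dt (e k) (e (k - 1)) : ℤ) : ℝ) *
      Qf (x k) (y k) w := by
    unfold Qf
    rw [div_eq_iff h3, mul_div_assoc', div_mul_eq_mul_div, eq_div_iff h3']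
    push_cast
    have f1 : (w.1 : ℝ) * (e k).1 + w.2 * (e (k - 1)).1 - x 0 * (w.1 * (e k).2 +
        w.2 * (e (k - 1)).2) = m * (w.1 - x k * w.2) := by
      linear_combination (w.2 : ℝ) * h1
    have f2 : y 0 * ((w.1 : ℝ) * (e k).1 + w.2 * (e (k - 1)).1) + (w.1 * (e k).2 +
        w.2 * (e (k - 1)).2) = n * (y k * w.1 + w.2) := by
      linear_combination (w.1 : ℝ) * h2
    rw [f1, f2]
    linear_combination (-((w.1 - x k * w.2) * (y k * w.1 + w.2))) * h5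
  rw [h6, abs_mul]
  rcases hf.det_abs k with h7 | h7 <;> rw [h7] <;> simp

/-- reduction of integral vectors -/
def red (n : ℕ) (w : ℤ × ℤ) : ZMod n × ZMod n := ((w.1 : ZMod n), (w.2 : ZMod n))

/-- the action of the letters on the states -/
def MS (n : ℕ) (d : ℤ) (s : (ZMod n × ZMod n) × (ZMod n × ZMod n)) :
    (ZMod n × ZMod n) × (ZMod n × ZMod n) :=
  ((((d : ZMod n) + 1) ^ 2 * s.1.1 + s.1.1 + ((d : ZMod n) + 1) * s.2.1,
    ((d : ZMod n) + 1) ^ 2 * s.1.2 + s.1.2 + ((d : ZMod n) + 1) * s.2.2),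
   (((d : ZMod n) + 1) * s.1.1 + s.2.1, ((d : ZMod n) + 1) * s.1.2 + s.2.2))

theorem MS_inj (n : ℕ) (d : ℤ) : Function.Injective (MS n d) := by
  rintro ⟨⟨s1, s2⟩, ⟨s3, s4⟩⟩ ⟨⟨t1, t2⟩, ⟨t3, t4⟩⟩ h
  simp only [MS, Prod.mk.injEq] at h
  obtain ⟨⟨h1, h2⟩, ⟨h3, h4⟩⟩ := h
  have e1 : s1 = t1 := by linear_combination h1 - ((d : ZMod n) + 1) * h3
  have e2 : s2 = t2 := by linear_combination h2 - ((d : ZMod n) + 1) * h4
  subst e1 e2
  have e3 : s3 = t3 := by linear_combination h3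
  have e4 : s4 = t4 := by linear_combination h4
  rw [e3, e4]

/-- **leaves of irrational slope** -/
theorem irr_core (h : Ch x y a) (hl : ∀ k, x k + 1 / y k ≤ 3) {k₀ : ℤ}
    (hk₀ : a (k₀ - 1) ≠ a k₀) {S : ℤ → ℤ} (hS : IsH S (wd a k₀)) {α : ℝ} (hα : Slope S α)
    (hirr : Irrational α) {n : ℕ} (hn : n ≠ 0) {g₁ g₂ g₃ g₄ : ℤ}
    (hd : |g₁ * g₄ - g₂ * g₃| = n)
    (hprim : ∀ c : ℤ, c ∣ g₁ → c ∣ g₂ → c ∣ g₃ → c ∣ g₄ → IsUnit c)
    (hQ : ∀ w : ℤ × ℤ, w ≠ 0 → 1 / 3 ≤ |Qf (x 0) (y 0) w|)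
    (hL : ∀ w : ℤ × ℤ, w ≠ 0 → (n : ℤ) ∣ g₁ * w.1 + g₂ * w.2 → (n : ℤ) ∣ g₃ * w.1 + g₄ * w.2 →
      n / 3 ≤ |Qf (x 0) (y 0) w|) : n = 1 := by
  have : NeZero n := ⟨hn⟩
  obtain ⟨e, hf⟩ := exists_frames a
  set W : ℕ → ℤ := fun N => wd a k₀ N with hW
  set L : ℕ → (ZMod n × ZMod n) × (ZMod n × ZMod n) := fun N =>
    (red n (act g₁ g₂ g₃ g₄ (e (k₀ + 2 * N))), red n (act g₁ g₂ g₃ g₄ (e (k₀ + 2 * N - 1))))
    with hLd
  have hB := bal_of_mp (h.wd_isW hl k₀) hS (h.wd_mp hl hk₀) (h.wd_mp' hl hk₀)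
  have hLW : LW W (fun N : ℕ => S N) α := by
    refine ⟨fun N => h.wd_isW hl k₀ N, fun N => ?_, fun m p k => ?_, hirr, 1 + |(S 0 : ℝ)|,
      fun N => ?_⟩
    · have := hS N
      show S ((N + 1 : ℕ) : ℤ) = S N + wd a k₀ N
      push_cast
      exact this
    · have := hB m p k
      push_cast
      exact this
    · have := hα 0 N
      rw [zero_add] at this
      have e1 : (S N : ℝ) - N * α = ((S N : ℝ) - S 0 - N * α) + S 0 := by ring
      show |(S (N : ℤ) : ℝ) - N * α| ≤ _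
      rw [e1]
      refine (abs_add_le _ _).trans ?_
      linarith
  have hst : ∀ N, L (N + 1) = MS n (W N) (L N) := by
    intro N
    have f1 := hf.hs (k₀ + 2 * N)
    have f2 := hf.hs (k₀ + 2 * N + 1)
    have al := h.align hl hk₀ N
    have hw : a (k₀ + 2 * N) = W N + 1 := by
      rw [hW]
      unfold wd
      ring
    rw [al, hw, add_sub_cancel_right] at f2
    rw [hw] at f1
    have g1 : e (k₀ + 2 * ((N + 1 : ℕ) : ℤ)) = (W N + 1) • e (k₀ + 2 * N + 1) + e (k₀ + 2 * N) := by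
      rw [← f2]
      congr 1
      push_cast
      ring
    have g2 : e (k₀ + 2 * ((N + 1 : ℕ) : ℤ) - 1) = (W N + 1) • e (k₀ + 2 * N) +
        e (k₀ + 2 * N - 1) := by
      rw [← f1]
      congr 1
      push_cast
      ring
    show (red n (act g₁ g₂ g₃ g₄ (e (k₀ + 2 * ((N + 1 : ℕ) : ℤ)))),
      red n (act g₁ g₂ g₃ g₄ (e (k₀ + 2 * ((N + 1 : ℕ) : ℤ) - 1)))) = _
    rw [g1, g2, f1]
    simp only [hLd, MS, red, act, Prod.fst_add, Prod.snd_add, Prod.smul_fst, Prod.smul_snd,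
      smul_eq_mul, Prod.mk.injEq]
    push_cast
    refine ⟨⟨?_, ?_⟩, ⟨?_, ?_⟩⟩ <;> ring
  obtain ⟨T, ⟨s, hs⟩, hT1, hT2⟩ := symb hLW (MS n) (MS_inj n) hst
  -- the determinant of the states
  have hdetN : ∀ N : ℕ, |(act g₁ g₂ g₃ g₄ (e (k₀ + 2 * N))).1 *
      (act g₁ g₂ g₃ g₄ (e (k₀ + 2 * N - 1))).2 - (act g₁ g₂ g₃ g₄ (e (k₀ + 2 * N - 1))).1 *
      (act g₁ g₂ g₃ g₄ (e (k₀ + 2 * N))).2| = n := by
    intro N
    have := dt_act g₁ g₂ g₃ g₄ (e (k₀ + 2 * N)) (e (k₀ + 2 * N - 1))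
    unfold dt at this
    rw [this, abs_mul, hd]
    have h1 := hf.det_abs (k₀ + 2 * N)
    unfold dt at h1
    rcases h1 with h1 | h1 <;> rw [h1] <;> simp
  -- the claim for one state
  have key : ∀ s ∈ T, ∃ t : ℤ, (n : ℤ) = t ^ 2 ∧ (t : ZMod n) * (2 * s.1.1 + s.2.1) = 0 ∧
      (t : ZMod n) * (2 * s.1.2 + s.2.2) = 0 := by
    intro s hs
    choose kk ll hA hk hl0 hsk hsl using hT2 s hs
    obtain ⟨φ, X₁, X₂, Y, hφ, b1, b2, b3, b4, t1, t2, t3, t4, v1, v2⟩ :=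
      branch_limit h hl hk₀ hS hα hirr hA hk hl0
    -- the integral matrix of the state
    set α' := (act g₁ g₂ g₃ g₄ (e (k₀ + 2 * kk 0))).1 with hα'
    set γ' := (act g₁ g₂ g₃ g₄ (e (k₀ + 2 * kk 0))).2 with hγ'
    set β' := (act g₁ g₂ g₃ g₄ (e (k₀ + 2 * kk 0 - 1))).1 with hβ'
    set δ' := (act g₁ g₂ g₃ g₄ (e (k₀ + 2 * kk 0 - 1))).2 with hδ'
    have hdet := hdetN (kk 0)
    rw [← hα', ← hγ', ← hβ', ← hδ'] at hdet
    have hs0 : s = (((α' : ZMod n), (γ' : ZMod n)), ((β' : ZMod n), (δ' : ZMod n))) := by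
      rw [← hsk 0]
      rfl
    have hframe : ∀ (N : ℤ) (w : ℤ × ℤ), w ≠ 0 → (w.1 * (e (k₀ + 2 * N)).1 + w.2 * (e (k₀ + 2 * N - 1)).1,
        w.1 * (e (k₀ + 2 * N)).2 + w.2 * (e (k₀ + 2 * N - 1)).2) ≠ (0 : ℤ × ℤ) := by
      intro N w hw h0
      have h1 := act_ne (A := (e (k₀ + 2 * N)).1) (B := (e (k₀ + 2 * N - 1)).1)
        (C := (e (k₀ + 2 * N)).2) (D := (e (k₀ + 2 * N - 1)).2) (by
          have := hf.det_abs (k₀ + 2 * N)
          unfold dt at this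
          omega) hw
      apply h1
      rw [← h0]
      unfold act
      ext <;> simp only <;> ring
    have hbQ : ∀ (N : ℤ) (w : ℤ × ℤ), w ≠ 0 → 1 / 3 ≤ |Qf (x (k₀ + 2 * N)) (y (k₀ + 2 * N)) w| := by
      intro N w hw
      rw [h.Qf_frame hf]
      exact hQ _ (hframe N w hw)
    have hbL : ∀ N : ℕ, L N = s → ∀ z : ℤ × ℤ, z ≠ 0 → n / 3 ≤
        |Qf (x (k₀ + 2 * N)) (y (k₀ + 2 * N)) (act δ' (-β') (-γ') α' z)| := by
      intro N hN z hz
      have hd0 : δ' * α' - -β' * -γ' ≠ 0 := by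
        intro h0
        have h8 : α' * δ' - β' * γ' = 0 := by linarith
        rw [h8] at hdet
        simp at hdet
        exact hn (by exact_mod_cast hdet.symm)
      have hW' := act_ne hd0 hz
      rw [h.Qf_frame hf]
      set w := act δ' (-β') (-γ') α' z with hw
      have hsN := hN.trans hs0
      simp only [hLd, red, Prod.mk.injEq] at hsN
      obtain ⟨⟨p1, p2⟩, ⟨p3, p4⟩⟩ := hsN
      have hdetz : ((α' * δ' - β' * γ' : ℤ) : ZMod n) = 0 := by
        rw [ZMod.intCast_zmod_eq_zero_iff_dvd, ← dvd_abs, hdet]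
      push_cast at hdetz
      have w1 : (w.1 : ZMod n) = δ' * z.1 - β' * z.2 := by
        rw [hw]
        simp only [act]
        push_cast
        ring
      have w2 : (w.2 : ZMod n) = -γ' * z.1 + α' * z.2 := by
        rw [hw]
        simp only [act]
        push_cast
        ring
      refine hL _ (hframe N w hW') ?_ ?_
      · rw [← ZMod.intCast_zmod_eq_zero_iff_dvd]
        simp only [act] at p1 p3
        push_cast at p1 p3 ⊢
        rw [w1, w2]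
        linear_combination (δ' * z.1 - β' * z.2 : ZMod n) * p1 +
          (-γ' * z.1 + α' * z.2 : ZMod n) * p3 + (z.1 : ZMod n) * hdetz
      · rw [← ZMod.intCast_zmod_eq_zero_iff_dvd]
        simp only [act] at p2 p4
        push_cast at p2 p4 ⊢
        rw [w1, w2]
        linear_combination (δ' * z.1 - β' * z.2 : ZMod n) * p2 +
          (-γ' * z.1 + α' * z.2 : ZMod n) * p4 + (z.2 : ZMod n) * hdetz
    -- limits
    have hQlim : ∀ {u v : ℕ → ℝ} {X : ℝ}, Tendsto u atTop (𝓝 X) → Tendsto v atTop (𝓝 Y) →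
        1 < X → ∀ w : ℤ × ℤ, Tendsto (fun m => |Qf (u m) (v m) w|) atTop (𝓝 |Qf X Y w|) := by
      intro u v X hu hv hX w
      apply Tendsto.abs
      unfold Qf
      apply Tendsto.div
      · exact (tendsto_const_nhds.sub (hu.mul_const _)).mul ((hv.mul_const _).add_const _)
      · exact (hu.mul hv).add_const _
      · positivity
    have hη : ∀ {X : ℝ}, 1 < X → X ≠ -1 / Y := by
      intro X hX h0
      have : -1 / Y < 0 := div_neg_of_neg_of_pos (by norm_num) (by linarith)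
      linarith
    have q1 : ∀ w : ℤ × ℤ, w ≠ 0 → 1 / 3 ≤ |Fm X₁ (-1 / Y) w| := by
      intro w hw
      rw [← Qf_eq b1 b3]
      exact ge_of_tendsto' (hQlim t1 t2 b1 w) (fun m => hbQ _ w hw)
    have q2 : ∀ w : ℤ × ℤ, w ≠ 0 → 1 / 3 ≤ |Fm X₂ (-1 / Y) w| := by
      intro w hw
      rw [← Qf_eq b2 b3]
      exact ge_of_tendsto' (hQlim t3 t4 b2 w) (fun m => hbQ _ w hw)
    have l1 : ∀ w : ℤ × ℤ, w ≠ 0 → n / 3 ≤ |Fm X₁ (-1 / Y) (act δ' (-β') (-γ') α' w)| := by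
      intro w hw
      rw [← Qf_eq b1 b3]
      exact ge_of_tendsto' (hQlim t1 t2 b1 _) (fun m => hbL _ (hsk _) w hw)
    have l2 : ∀ w : ℤ × ℤ, w ≠ 0 → n / 3 ≤ |Fm X₂ (-1 / Y) (act δ' (-β') (-γ') α' w)| := by
      intro w hw
      rw [← Qf_eq b2 b3]
      exact ge_of_tendsto' (hQlim t3 t4 b2 _) (fun m => hbL _ (hsl _) w hw)
    rw [Qf_eq b1 b3] at v1 v2
    rw [Qf_eq b2 b3] at v2
    have hdet' : |δ' * α' - -β' * -γ'| = n := by
      rw [← hdet]
      congr 1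
      ring
    have hvec : ∃ t : ℤ, (n : ℤ) = t ^ 2 ∧ ∃ w, act δ' (-β') (-γ') α' w = (2 * t, t) := by
      by_cases hp : Per X₁ (-1 / Y)
      · refine lattice_vec hn hdet' (hη b2) (hη b1) b4.symm q2 q1 l2 l1 (fun hp2 => b4 ?_) ?_ ?_
        · exact per_unique (irr_of_form q1).2 (hη b1) (hη b2) hp hp2
        · rw [v2, abs_neg, v1]
        · rw [v2, neg_neg]
      · exact lattice_vec hn hdet' (hη b1) (hη b2) b4 q1 q2 l1 l2 hp v1 v2
    obtain ⟨t, ht, w, hw⟩ := hvec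
    have w1 := congrArg Prod.fst hw
    have w2 := congrArg Prod.snd hw
    simp only [act] at w1 w2
    have w1' : (δ' : ZMod n) * w.1 - β' * w.2 = 2 * t := by
      have h1 : ((δ' * w.1 + -β' * w.2 : ℤ) : ZMod n) = ((2 * t : ℤ) : ZMod n) := by rw [w1]
      push_cast at h1
      linear_combination h1
    have w2' : -(γ' : ZMod n) * w.1 + α' * w.2 = t := by
      have h1 : ((-γ' * w.1 + α' * w.2 : ℤ) : ZMod n) = ((t : ℤ) : ZMod n) := by rw [w2]
      push_cast at h1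
      linear_combination h1
    have hdetz : ((α' * δ' - β' * γ' : ℤ) : ZMod n) = 0 := by
      rw [ZMod.intCast_zmod_eq_zero_iff_dvd, ← dvd_abs, hdet]
    push_cast at hdetz
    refine ⟨t, ht, ?_, ?_⟩
    · rw [hs0]
      simp only
      linear_combination (-(α' : ZMod n)) * w1' - (β' : ZMod n) * w2' + (w.1 : ZMod n) * hdetz
    · rw [hs0]
      simp only
      linear_combination (-(γ' : ZMod n)) * w1' - (δ' : ZMod n) * w2' + (w.2 : ZMod n) * hdetz
  obtain ⟨t, ht, k1, k2⟩ := key s hs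
  obtain ⟨t', ht', k3, k4⟩ := key (MS n 0 s) (hT1 0 (Or.inl rfl) hs)
  have htt : ∀ z : ZMod n, (t' : ZMod n) * z = 0 → (t : ZMod n) * z = 0 := by
    intro z hz
    have h1 : t' ^ 2 = t ^ 2 := by rw [← ht, ← ht']
    rcases sq_eq_sq_iff_eq_or_eq_neg.1 h1 with h2 | h2
    · rw [h2] at hz
      exact hz
    · rw [h2] at hz
      push_cast at hz
      linear_combination (-1 : ZMod n) * hz
  have k3' := htt _ k3
  have k4' := htt _ k4
  simp only [MS] at k3' k4'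
  push_cast at k3' k4'
  have z11 : (t : ZMod n) * s.1.1 = 0 := by linear_combination 3 * k1 - k3'
  have z12 : (t : ZMod n) * s.1.2 = 0 := by linear_combination 3 * k2 - k4'
  have z21 : (t : ZMod n) * s.2.1 = 0 := by linear_combination k1 - 2 * z11
  have z22 : (t : ZMod n) * s.2.2 = 0 := by linear_combination k2 - 2 * z12
  -- divisibility
  obtain ⟨N, -, -, -, -, hN, -⟩ := hT2 s hs 0
  have ht0 : t ≠ 0 := by
    rintro rfl
    apply hn
    have : (n : ℤ) = 0 := by rw [ht]; ring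
    exact_mod_cast this
  have hdv : ∀ z : ℤ, (t : ZMod n) * (z : ZMod n) = 0 → t ∣ z := by
    intro z hz
    have h1 : ((t * z : ℤ) : ZMod n) = 0 := by
      push_cast
      exact hz
    rw [ZMod.intCast_zmod_eq_zero_iff_dvd, ht] at h1
    obtain ⟨c, hc⟩ := h1
    refine ⟨c, mul_left_cancel₀ ht0 ?_⟩
    rw [hc]
    ring
  rw [← hN] at z11 z12 z21 z22
  have d11 := hdv _ z11
  have d12 := hdv _ z12
  have d21 := hdv _ z21
  have d22 := hdv _ z22
  have hE := hf.det_abs (k₀ + 2 * N)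
  simp only [act] at d11 d12 d21 d22
  unfold dt at hE
  set p := (e (k₀ + 2 * N)).1
  set q := (e (k₀ + 2 * N)).2
  set p' := (e (k₀ + 2 * N - 1)).1
  set q' := (e (k₀ + 2 * N - 1)).2
  have hun : IsUnit t := by
    have hD : (p * q' - p' * q) * (p * q' - p' * q) = 1 := by
      rcases hE with h1 | h1 <;> rw [h1] <;> norm_num
    apply hprim
    · have : g₁ = (p * q' - p' * q) * (q' * (g₁ * p + g₂ * q) - q * (g₁ * p' + g₂ * q')) := by
        linear_combination (-g₁) * hD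
      rw [this]
      exact Dvd.dvd.mul_left (dvd_sub (Dvd.dvd.mul_left d11 _) (Dvd.dvd.mul_left d21 _)) _
    · have : g₂ = (p * q' - p' * q) * (p * (g₁ * p' + g₂ * q') - p' * (g₁ * p + g₂ * q)) := by
        linear_combination (-g₂) * hD
      rw [this]
      exact Dvd.dvd.mul_left (dvd_sub (Dvd.dvd.mul_left d21 _) (Dvd.dvd.mul_left d11 _)) _
    · have : g₃ = (p * q' - p' * q) * (q' * (g₃ * p + g₄ * q) - q * (g₃ * p' + g₄ * q')) := by
        linear_combination (-g₃) * hD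
      rw [this]
      exact Dvd.dvd.mul_left (dvd_sub (Dvd.dvd.mul_left d12 _) (Dvd.dvd.mul_left d22 _)) _
    · have : g₄ = (p * q' - p' * q) * (p * (g₃ * p' + g₄ * q') - p' * (g₃ * p + g₄ * q)) := by
        linear_combination (-g₄) * hD
      rw [this]
      exact Dvd.dvd.mul_left (dvd_sub (Dvd.dvd.mul_left d22 _) (Dvd.dvd.mul_left d12 _)) _
  rcases Int.isUnit_iff.1 hun with h1 | h1
  · rw [h1] at ht
    exact_mod_cast ht
  · rw [h1] at ht
    norm_num at ht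
    exact ht

end

end Pool.Agent.L3
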