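import Pool.Agent.Work.MP_5e120e_nt.Fin.Unif

/-! # Markov numbers as largest coordinates -/

namespace Pool.Agent.L3

/-- a coordinate of a solution is the largest coordinate of a solution -/
theorem IsMarkov.largest_aux (m : ℤ) (hm : 0 < m) (N : ℕ) : ∀ a b : ℤ, 0 < a → 0 < b →
    a + b ≤ N → a ^ 2 + b ^ 2 + m ^ 2 = 3 * a * b * m →
    ∃ a b : ℤ, 0 < a ∧ a ≤ m ∧ 0 < b ∧ b ≤ m ∧ a ^ 2 + b ^ 2 + m ^ 2 = 3 * a * b * m := by
  induction N with
  | zero =>
    intro a b ha hb hN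
    push_cast at hN
    omega
  | succ N ih =>
    intro a b ha hb hN h
    push_cast at hN
    -- the descent at the larger of the two other coordinates
    have key : ∀ a b : ℤ, 0 < a → 0 < b → a + b ≤ N + 1 → b ≤ a → m < a →
        a ^ 2 + b ^ 2 + m ^ 2 = 3 * a * b * m →
        ∃ a b : ℤ, 0 < a ∧ a ≤ m ∧ 0 < b ∧ b ≤ m ∧ a ^ 2 + b ^ 2 + m ^ 2 = 3 * a * b * m := by
      intro a b ha hb hN hba hma h
      have e1 : a * (3 * b * m - a) = b ^ 2 + m ^ 2 := by linear_combination (-1 : ℤ) * h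
      have hpos : 0 < 3 * b * m - a := by
        by_contra hc
        push Not at hc
        have : a * (3 * b * m - a) ≤ 0 := mul_nonpos_of_nonneg_of_nonpos ha.le hc
        nlinarith
      have hlt : 3 * b * m - a < a := by
        by_contra hc
        push Not at hc
        -- `a ^ 2 ≤ b ^ 2 + m ^ 2` and `2 a ≤ 3 b m`
        have e2 : a * a ≤ a * (3 * b * m - a) := mul_le_mul_of_nonneg_left hc ha.le
        have e3 : a ^ 2 ≤ b ^ 2 + m ^ 2 := by nlinarith
        have e4 : 3 * a * b * m ≤ 2 * (b ^ 2 + m ^ 2) := by nlinarith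
        have e5 : b ^ 2 * m ≤ a * b * m := by nlinarith [mul_pos hb hm]
        have e6 : m ^ 2 * b < a * b * m := by nlinarith [mul_pos hb hm]
        have e7 : b ^ 2 ≤ b ^ 2 * m := by nlinarith [sq_nonneg b]
        have e8 : m ^ 2 ≤ m ^ 2 * b := by nlinarith [sq_nonneg m]
        nlinarith
      exact ih (3 * b * m - a) b hpos hb (by omega) (by linear_combination h)
    rcases le_or_gt a m with h1 | h1
    · rcases le_or_gt b m with h2 | h2
      · exact ⟨a, b, ha, h1, hb, h2, h⟩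
      · exact key b a hb ha (by omega) (by omega) h2 (by linear_combination h)
    · rcases le_or_gt b a with h2 | h2
      · exact key a b ha hb (by omega) h2 h1 h
      · exact key b a hb ha (by omega) (by omega) (by omega) (by linear_combination h)

theorem IsMarkov.largest {m : ℤ} (h : IsMarkov m) :
    ∃ a b : ℤ, 0 < a ∧ a ≤ m ∧ 0 < b ∧ b ≤ m ∧ a ^ 2 + b ^ 2 + m ^ 2 = 3 * a * b * m := by
  obtain ⟨a, b, ha, hb, hm, h⟩ := h
  exact IsMarkov.largest_aux m hm (a + b).toNat a b ha hb (by omega) h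

theorem IsMarkov.nat {m : ℤ} (h : IsMarkov m) : ∃ m' a b : ℕ, m = m' ∧ 0 < a ∧ a ≤ m' ∧ 0 < b ∧
    b ≤ m' ∧ a ^ 2 + b ^ 2 + m' ^ 2 = 3 * a * b * m' := by
  have hm : 0 < m := by
    obtain ⟨a, b, -, -, h3, -⟩ := h
    exact h3
  obtain ⟨a, b, ha, ha', hb, hb', he⟩ := h.largest
  refine ⟨m.toNat, a.toNat, b.toNat, by omega, by omega, by omega, by omega, by omega, ?_⟩
  have e1 : ((m.toNat : ℕ) : ℤ) = m := by omega
  have e2 : ((a.toNat : ℕ) : ℤ) = a := by omega
  have e3 : ((b.toNat : ℕ) : ℤ) = b := by omega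
  have : ((a.toNat ^ 2 + b.toNat ^ 2 + m.toNat ^ 2 : ℕ) : ℤ) =
      ((3 * a.toNat * b.toNat * m.toNat : ℕ) : ℤ) := by
    push_cast
    rw [e1, e2, e3]
    exact he
  exact_mod_cast this

theorem prim_of_gcd {a b c d : ℤ} (h : Nat.gcd (Int.gcd a b) (Int.gcd c d) = 1) :
    Prim a b c d := by
  intro e h1 h2 h3 h4
  have h5 : e.natAbs ∣ Int.gcd a b :=
    Nat.dvd_gcd (Int.natAbs_dvd_natAbs.2 h1) (Int.natAbs_dvd_natAbs.2 h2)
  have h6 : e.natAbs ∣ Int.gcd c d :=
    Nat.dvd_gcd (Int.natAbs_dvd_natAbs.2 h3) (Int.natAbs_dvd_natAbs.2 h4)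
  have h7 := Nat.dvd_gcd h5 h6
  rw [h, Nat.dvd_one] at h7
  exact Int.isUnit_iff_natAbs_eq.2 h7

end Pool.Agent.L3
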