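import Pool.Agent.Work.MP_5e120e_nt.Fin.Irr
import Pool.Agent.Work.MP_5e120e_nt.Markov

/-! # Extremal leaves and primitive sublattices -/

namespace Pool.Agent.L3

/-- the entries have no common divisor -/
def Prim (a b c d : ℤ) : Prop := ∀ e : ℤ, e ∣ a → e ∣ b → e ∣ c → e ∣ d → IsUnit e

theorem Prim.bezout {a b c d : ℤ} (h : Prim a b c d) :
    ∃ p q r s : ℤ, p * a + q * b + r * c + s * d = 1 := by
  have h1 := Int.gcd_eq_gcd_ab a b
  have h2 := Int.gcd_eq_gcd_ab c d
  have h3 : IsCoprime ((Int.gcd a b : ℕ) : ℤ) ((Int.gcd c d : ℕ) : ℤ) := by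
    rw [Int.isCoprime_iff_gcd_eq_one]
    have hu := h ((Int.gcd ((Int.gcd a b : ℕ) : ℤ) ((Int.gcd c d : ℕ) : ℤ) : ℕ) : ℤ)
      ((Int.gcd_dvd_left _ _).trans (Int.gcd_dvd_left _ _))
      ((Int.gcd_dvd_left _ _).trans (Int.gcd_dvd_right _ _))
      ((Int.gcd_dvd_right _ _).trans (Int.gcd_dvd_left _ _))
      ((Int.gcd_dvd_right _ _).trans (Int.gcd_dvd_right _ _))
    rcases Int.isUnit_iff.1 hu with h4 | h4
    · exact_mod_cast h4
    · have : (0 : ℤ) ≤ ((Int.gcd ((Int.gcd a b : ℕ) : ℤ) ((Int.gcd c d : ℕ) : ℤ) : ℕ) : ℤ) :=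
        Int.natCast_nonneg _
      omega
  obtain ⟨u, v, huv⟩ := h3
  rw [h1, h2] at huv
  exact ⟨u * Int.gcdA a b, u * Int.gcdB a b, v * Int.gcdA c d, v * Int.gcdB c d, by
    linear_combination huv⟩

theorem Prim.dvd_of {a b c d m e : ℤ} (h : Prim a b c d) (h1 : m ∣ a * e) (h2 : m ∣ b * e)
    (h3 : m ∣ c * e) (h4 : m ∣ d * e) : m ∣ e := by
  obtain ⟨p, q, r, s, hb⟩ := h.bezout
  have : e = p * (a * e) + q * (b * e) + r * (c * e) + s * (d * e) := by
    linear_combination (-e) * hb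
  rw [this]
  exact dvd_add (dvd_add (dvd_add (Dvd.dvd.mul_left h1 _) (Dvd.dvd.mul_left h2 _))
    (Dvd.dvd.mul_left h3 _)) (Dvd.dvd.mul_left h4 _)

/-- the leaf has irrational slope -/
def IrrT (ξ η : ℝ) : Prop := ∃ (A B C D : ℤ) (x y : ℤ → ℝ) (a : ℤ → ℤ) (k₀ : ℤ) (S : ℤ → ℤ)
  (α : ℝ), |A * D - B * C| = 1 ∧ Rel A B C D ξ (x 0) ∧ Rel A B C D η (-1 / y 0) ∧ Ch x y a ∧
    (∀ k, x k + 1 / y k ≤ 3) ∧ a (k₀ - 1) ≠ a k₀ ∧ IsH S (wd a k₀) ∧ Slope S α ∧ Irrational α

theorem Fm_neg (ξ η : ℝ) (w : ℤ × ℤ) : Fm ξ η (-w.1, -w.2) = Fm ξ η w := by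
  unfold Fm
  push_cast
  ring

theorem dich {ξ η : ℝ} (hne : ξ ≠ η) (hQ : ∀ w : ℤ × ℤ, w ≠ 0 → 1 / 3 ≤ |Fm ξ η w|)
    (hnp : ¬ Per ξ η) : IrrT ξ η ∨
      ∃ v w : ℤ × ℤ, |Fm ξ η v| = 1 / 3 ∧ |Fm ξ η w| = 1 / 3 ∧ IsMarkov |dt v w| := by
  obtain ⟨i1, i3⟩ := irr_of_form hQ
  obtain ⟨A, B, C, D, ξ', -, η', hd, r1, -, r3, b1, -, b3, b4⟩ := reduce i1 i1 i3 hne hne
  have hd0 : A * D - B * C ≠ 0 := by
    intro h0
    rw [h0] at hd
    simp at hd
  have hd' : |((A * D - B * C : ℤ) : ℝ)| = 1 := by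
    rw [← Int.cast_abs, hd]
    simp
  have n1 := Rel_ne hd0 r1 r3 hne
  have F1 := Fm_act r1 r3 n1 hne
  have i1' := Rel_irr hd0 r1 i1
  have i3' := Rel_irr hd0 r3 i3
  set y₀ : ℝ := -1 / η' with hy₀
  have hy1 : 1 < y₀ := by
    rw [hy₀, lt_div_iff_of_neg b4]
    linarith
  have hyi : Irrational y₀ := by
    have : y₀ = -(η'⁻¹) := by rw [hy₀]; ring
    rw [this]
    exact ((irrational_inv_iff).2 i3').neg
  have hη : -1 / y₀ = η' := by
    rw [hy₀]
    have : η' ≠ 0 := b4.ne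
    field_simp
  obtain ⟨x, y, a, h, hx0, hy0⟩ := exists_chain b1 i1' hy1 hyi
  have hQf : ∀ w, |Qf (x 0) (y 0) w| = |Fm ξ η (act A B C D w)| := by
    intro w
    rw [hx0, hy0, Qf_eq b1 hy1, hη, F1 w, abs_mul, hd', one_mul]
  have hl : ∀ k, x k + 1 / y k ≤ 3 := by
    intro k
    obtain ⟨e, hf⟩ := exists_frames a
    have h5 := h.Qe hf k
    have h6 : e k ≠ 0 := by
      intro h0
      rcases hf.det_abs k with h7 | h7 <;> rw [h0] at h7 <;> simp [dt] at h7
    have h7 := hQ _ (act_ne hd0 h6)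
    rw [← hQf] at h7
    have h8 : |Qf (x 0) (y 0) (e k)| * |x k + 1 / y k| = 1 := by
      rw [← abs_mul, h5]
      rcases hf.det_abs k with h9 | h9 <;> rw [h9] <;> norm_num
    have h9 : 0 < x k + 1 / y k := by
      have := h.hx1 k
      have := (h.inv_y k).1
      linarith
    rw [abs_of_pos h9] at h8
    nlinarith
  have hnp' : ¬ Per (x 0) (-1 / y 0) := by
    rw [hx0, hy0, hη]
    exact fun hp => hnp (Rel_per hd0 r1 r3 i1 hp)
  have hbd : ∃ k₀, a (k₀ - 1) ≠ a k₀ := by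
    by_contra hcon
    push Not at hcon
    apply hnp'
    refine h.per (r := 1) one_pos (fun k => ?_)
    have := hcon (k + 1)
    rw [add_sub_cancel_right] at this
    push_cast
    exact this.symm
  obtain ⟨k₀, hk₀⟩ := hbd
  obtain ⟨S, hS, -⟩ := exists_height (wd a k₀)
  have hB := bal_of_mp (h.wd_isW hl k₀) hS (h.wd_mp hl hk₀) (h.wd_mp' hl hk₀)
  obtain ⟨α, hα⟩ := exists_slope hB
  by_cases hirr : Irrational α
  · left
    exact ⟨A, B, C, D, x, y, a, k₀, S, α, hd, by rw [hx0]; exact r1, by rw [hy0, hη]; exact r3,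
      h, hl, hk₀, hS, hα, hirr⟩
  · right
    obtain ⟨v, w, v1, w1, hM⟩ := skew_markov h hl hk₀ hnp' hS hα hirr
    refine ⟨act A B C D v, act A B C D w, ?_, ?_, ?_⟩
    · rw [← hQf]
      exact v1
    · rw [← hQf]
      exact w1
    · rw [dt_act, abs_mul, hd, one_mul]
      exact hM

/-- a leaf of irrational slope has no proper primitive extremal sublattice -/
theorem irr_gen {ξ η : ℝ} (hne : ξ ≠ η) (hQ : ∀ w : ℤ × ℤ, w ≠ 0 → 1 / 3 ≤ |Fm ξ η w|)
    (hT : IrrT ξ η) {n : ℕ} (hn : n ≠ 0) {A B C D : ℤ} (hd : |A * D - B * C| = n)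
    (hprim : Prim A B C D)
    (hL : ∀ w : ℤ × ℤ, w ≠ 0 → n / 3 ≤ |Fm ξ η (act A B C D w)|) : n = 1 := by
  obtain ⟨A₀, B₀, C₀, D₀, x, y, a, k₀, S, α, hd₀, r1, r3, h, hl, hk₀, hS, hα, hirr⟩ := hT
  have hU0 : A₀ * D₀ - B₀ * C₀ ≠ 0 := by
    intro h0
    rw [h0] at hd₀
    simp at hd₀
  have hU' : |((A₀ * D₀ - B₀ * C₀ : ℤ) : ℝ)| = 1 := by
    rw [← Int.cast_abs, hd₀]
    simp
  have n1 := Rel_ne hU0 r1 r3 hne
  have F1 := Fm_act r1 r3 n1 hne
  have hQf : ∀ w, |Qf (x 0) (y 0) w| = |Fm ξ η (act A₀ B₀ C₀ D₀ w)| := by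
    intro w
    rw [Qf_eq (h.hx1 0) (h.hy1 0), F1 w, abs_mul, hU', one_mul]
  have hsq : (A₀ * D₀ - B₀ * C₀) * (A₀ * D₀ - B₀ * C₀) = 1 := by
    rcases (abs_eq zero_le_one).1 hd₀ with h1 | h1 <;> rw [h1] <;> norm_num
  refine irr_core h hl hk₀ hS hα hirr hn (g₁ := D * A₀ - B * C₀) (g₂ := D * B₀ - B * D₀)
    (g₃ := -C * A₀ + A * C₀) (g₄ := -C * B₀ + A * D₀) ?_ ?_ ?_ ?_
  · have : (D * A₀ - B * C₀) * (-C * B₀ + A * D₀) - (D * B₀ - B * D₀) * (-C * A₀ + A * C₀) =
        (A * D - B * C) * (A₀ * D₀ - B₀ * C₀) := by ring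
    rw [this, abs_mul, hd, hd₀, mul_one]
  · intro c c1 c2 c3 c4
    apply hprim
    · have : A = (A₀ * D₀ - B₀ * C₀) * ((-C * B₀ + A * D₀) * A₀ - (-C * A₀ + A * C₀) * B₀) := by
        linear_combination (-A) * hsq
      rw [this]
      exact Dvd.dvd.mul_left (dvd_sub (Dvd.dvd.mul_right c4 _) (Dvd.dvd.mul_right c3 _)) _
    · have : B = (A₀ * D₀ - B₀ * C₀) * ((D * A₀ - B * C₀) * B₀ - (D * B₀ - B * D₀) * A₀) := by
        linear_combination (-B) * hsq
      rw [this]
      exact Dvd.dvd.mul_left (dvd_sub (Dvd.dvd.mul_right c1 _) (Dvd.dvd.mul_right c2 _)) _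
    · have : C = (A₀ * D₀ - B₀ * C₀) * ((-C * B₀ + A * D₀) * C₀ - (-C * A₀ + A * C₀) * D₀) := by
        linear_combination (-C) * hsq
      rw [this]
      exact Dvd.dvd.mul_left (dvd_sub (Dvd.dvd.mul_right c4 _) (Dvd.dvd.mul_right c3 _)) _
    · have : D = (A₀ * D₀ - B₀ * C₀) * ((D * A₀ - B * C₀) * D₀ - (D * B₀ - B * D₀) * C₀) := by
        linear_combination (-D) * hsq
      rw [this]
      exact Dvd.dvd.mul_left (dvd_sub (Dvd.dvd.mul_right c1 _) (Dvd.dvd.mul_right c2 _)) _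
  · intro w hw
    rw [hQf]
    exact hQ _ (act_ne hU0 hw)
  · intro w hw ⟨z1, hz1⟩ ⟨z2, hz2⟩
    rw [hQf]
    have hu := act_ne hU0 hw
    set u := act A₀ B₀ C₀ D₀ w with hud
    have e1 : D * u.1 - B * u.2 = n * z1 := by
      rw [← hz1, hud]
      simp only [act]
      ring
    have e2 : -C * u.1 + A * u.2 = n * z2 := by
      rw [← hz2, hud]
      simp only [act]
      ring
    have hnz : (n : ℤ) ≠ 0 := by exact_mod_cast hn
    have f1 : (A * D - B * C) * u.1 = n * (A * z1 + B * z2) := by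
      linear_combination A * e1 + B * e2
    have f2 : (A * D - B * C) * u.2 = n * (C * z1 + D * z2) := by
      linear_combination C * e1 + D * e2
    have hz0 : ((z1, z2) : ℤ × ℤ) ≠ 0 := by
      intro h0
      have q1 : z1 = 0 := congrArg Prod.fst h0
      have q2 : z2 = 0 := congrArg Prod.snd h0
      rw [q1, q2] at f1 f2
      have hdne : A * D - B * C ≠ 0 := by
        intro h1
        rw [h1] at hd
        simp at hd
        exact hn (by exact_mod_cast hd.symm)
      apply hu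
      have g1 : (A * D - B * C) * u.1 = 0 := by rw [f1]; ring
      have g2 : (A * D - B * C) * u.2 = 0 := by rw [f2]; ring
      exact Prod.ext ((mul_eq_zero.1 g1).resolve_left hdne) ((mul_eq_zero.1 g2).resolve_left hdne)
    have hb := hL _ hz0
    rcases (abs_eq (Int.natCast_nonneg n)).1 hd with h1 | h1
    · rw [h1] at f1 f2
      have g1 := mul_left_cancel₀ hnz f1
      have g2 := mul_left_cancel₀ hnz f2
      have : act A B C D (z1, z2) = u := Prod.ext g1.symm g2.symm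
      rw [this] at hb
      exact hb
    · rw [h1] at f1 f2
      have g1 : -u.1 = A * z1 + B * z2 := mul_left_cancel₀ hnz (by linarith)
      have g2 : -u.2 = C * z1 + D * z2 := mul_left_cancel₀ hnz (by linarith)
      have : act A B C D (z1, z2) = (-u.1, -u.2) := Prod.ext g1.symm g2.symm
      rw [this, Fm_neg] at hb
      exact hb

/-- proportional extremal vectors -/
theorem prop_vec {n : ℕ} {ξ η : ℝ} {v W : ℤ × ℤ} (hdt : dt v W = 0)
    (hv : |Fm ξ η v| = 1 / 3) (hw : |Fm ξ η W| = n / 3) :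
    ∃ m : ℤ, (n : ℤ) = m ^ 2 ∧ W = (m * v.1, m * v.2) := by
  have hv0 : v ≠ 0 := by
    intro h0
    rw [h0] at hv
    unfold Fm at hv
    simp at hv
  have key : ∀ s t : ℤ, s ≠ 0 → s * W.1 = t * v.1 → s * W.2 = t * v.2 →
      ∃ m : ℤ, (n : ℤ) = m ^ 2 ∧ W = (m * v.1, m * v.2) := by
    intro s t hs h1 h2
    have h1' : (s : ℝ) * W.1 = t * v.1 := by exact_mod_cast h1
    have h2' : (s : ℝ) * W.2 = t * v.2 := by exact_mod_cast h2
    have h3 : (s : ℝ) ^ 2 * Fm ξ η W = t ^ 2 * Fm ξ η v := by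
      unfold Fm
      rw [mul_div_assoc', mul_div_assoc']
      congr 1
      have e1 : (s : ℝ) * (W.1 - ξ * W.2) = t * (v.1 - ξ * v.2) := by
        linear_combination h1' - ξ * h2'
      have e2 : (s : ℝ) * (W.1 - η * W.2) = t * (v.1 - η * v.2) := by
        linear_combination h1' - η * h2'
      linear_combination (s : ℝ) * (W.1 - η * W.2) * e1 + t * (v.1 - ξ * v.2) * e2
    have h4 := congrArg abs h3
    rw [abs_mul, abs_mul, hv, hw, abs_of_nonneg (sq_nonneg (s : ℝ)),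
      abs_of_nonneg (sq_nonneg (t : ℝ))] at h4
    have h5 : (s : ℝ) ^ 2 * n = t ^ 2 := by linarith
    have h6 : s ^ 2 * (n : ℤ) = t ^ 2 := by exact_mod_cast h5
    have h7 : s ∣ t := by
      have : s ^ 2 ∣ t ^ 2 := ⟨n, h6.symm⟩
      exact (Int.pow_dvd_pow_iff two_ne_zero).1 this
    obtain ⟨m, rfl⟩ := h7
    refine ⟨m, ?_, ?_⟩
    · have h9 : s ^ 2 * (n : ℤ) = s ^ 2 * m ^ 2 := by rw [h6]; ring
      exact mul_left_cancel₀ (pow_ne_zero 2 hs) h9
    · ext
      · show W.1 = m * v.1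
        exact mul_left_cancel₀ hs (by rw [h1]; ring)
      · show W.2 = m * v.2
        exact mul_left_cancel₀ hs (by rw [h2]; ring)
  unfold dt at hdt
  by_cases h1 : v.1 = 0
  · by_cases h2 : v.2 = 0
    · exact absurd (Prod.ext h1 h2) hv0
    · exact key v.2 W.2 h2 (by linarith) (by ring)
  · exact key v.1 W.1 h1 (by ring) (by linarith)

theorem isMarkov_one : IsMarkov 1 := ⟨1, 1, by norm_num, by norm_num, by norm_num, by norm_num⟩

/-- **extremal leaves and primitive sublattices** -/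
theorem leaf {ξ η : ℝ} (hne : ξ ≠ η) (hQ : ∀ w : ℤ × ℤ, w ≠ 0 → 1 / 3 ≤ |Fm ξ η w|)
    (hnp : ¬ Per ξ η) : ∃ M : ℤ, IsMarkov M ∧ ∀ (n : ℕ) (A B C D : ℤ), n ≠ 0 →
      |A * D - B * C| = n → Prim A B C D →
      (∀ w : ℤ × ℤ, w ≠ 0 → n / 3 ≤ |Fm ξ η (act A B C D w)|) →
      ∃ c : ℕ, (c : ℤ) ∣ M ∧ n = c ^ 2 := by
  obtain ⟨i1, i3⟩ := irr_of_form hQ
  rcases dich hne hQ hnp with hT | ⟨v, w, v1, w1, hM⟩
  · refine ⟨1, isMarkov_one, fun n A B C D hn hd hp hL => ⟨1, one_dvd _, ?_⟩⟩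
    rw [irr_gen hne hQ hT hn hd hp hL]
    norm_num
  · refine ⟨|dt v w|, hM, fun n A B C D hn hd hp hL => ?_⟩
    have hnpos : (0 : ℝ) < n := by exact_mod_cast Nat.pos_of_ne_zero hn
    have hd0 : A * D - B * C ≠ 0 := by
      intro h0
      rw [h0] at hd
      simp at hd
      exact hn (by exact_mod_cast hd.symm)
    have hd' : |((A * D - B * C : ℤ) : ℝ)| = n := by
      rw [← Int.cast_abs, hd]
      simp
    obtain ⟨ξ', r1⟩ := exists_rel hd0 i1
    obtain ⟨η', r3⟩ := exists_rel hd0 i3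
    have n1 := Rel_ne hd0 r1 r3 hne
    have F1 := Fm_act r1 r3 n1 hne
    have hQ' : ∀ w : ℤ × ℤ, w ≠ 0 → 1 / 3 ≤ |Fm ξ' η' w| := by
      intro w hw
      have := hL w hw
      rw [F1 w, abs_mul, hd'] at this
      have e : (n : ℝ) / 3 = n * (1 / 3) := by ring
      rw [e] at this
      exact le_of_mul_le_mul_left this hnpos
    have hnp' : ¬ Per ξ' η' := fun hp => hnp (Rel_per hd0 r1 r3 i1 hp)
    rcases dich n1 hQ' hnp' with hT | ⟨v', w', v1', w1', hM'⟩
    · refine ⟨1, one_dvd _, ?_⟩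
      have hone : n = 1 := by
        refine irr_gen n1 hQ' hT hn (A := D) (B := -B) (C := -C) (D := A) ?_ ?_ ?_
        · rw [← hd]
          congr 1
          ring
        · intro e e1 e2 e3 e4
          exact hp e e4 ((dvd_neg).1 e2) ((dvd_neg).1 e3) e1
        · intro u hu
          have e1 := F1 (act D (-B) (-C) A u)
          have e2 : act A B C D (act D (-B) (-C) A u) =
              ((A * D - B * C) * u.1, (A * D - B * C) * u.2) := by
            unfold act
            ext <;> simp only <;> ring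
          have e3 : Fm ξ η ((A * D - B * C) * u.1, (A * D - B * C) * u.2) =
              ((A * D - B * C : ℤ) : ℝ) ^ 2 * Fm ξ η u := by
            unfold Fm
            push_cast
            ring
          rw [e2, e3] at e1
          have e4 : ((A * D - B * C : ℤ) : ℝ) ≠ 0 := by exact_mod_cast hd0
          have e5 : Fm ξ' η' (act D (-B) (-C) A u) = ((A * D - B * C : ℤ) : ℝ) * Fm ξ η u := by
            apply mul_left_cancel₀ e4
            rw [← e1]
            ring
          rw [e5, abs_mul, hd']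
          have := hQ u hu
          have e : (n : ℝ) / 3 = n * (1 / 3) := by ring
          rw [e]
          exact mul_le_mul_of_nonneg_left this hnpos.le
      rw [hone]
      norm_num
    · have hval : ∀ u, |Fm ξ' η' u| = 1 / 3 → |Fm ξ η (act A B C D u)| = n / 3 := by
        intro u hu
        rw [F1 u, abs_mul, hd', hu]
        ring
      have hdt' : dt v' w' ≠ 0 := by
        intro h0
        rw [h0] at hM'
        obtain ⟨a, b, -, -, h3, -⟩ := hM'
        simp at h3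
      have hrat : ∀ u, |Fm ξ η u| = 1 / 3 → ∃ r : ℚ, Fm ξ η u = r := fun u hu =>
        abs_rat (q := 1 / 3) (by rw [hu]; push_cast; ring)
      have hratn : ∀ u, |Fm ξ η u| = n / 3 → ∃ r : ℚ, Fm ξ η u = r := fun u hu =>
        abs_rat (q := n / 3) (by rw [hu]; push_cast; ring)
      -- each extremal vector has a multiple in the sublattice
      have hmul : ∀ u, |Fm ξ η u| = 1 / 3 → ∃ (m : ℤ) (z : ℤ × ℤ), (n : ℤ) = m ^ 2 ∧
          act A B C D z = (m * u.1, m * u.2) := by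
        intro u hu
        by_cases e1 : dt u (act A B C D v') = 0
        · obtain ⟨m, hm, hW⟩ := prop_vec e1 hu (hval v' v1')
          exact ⟨m, v', hm, hW⟩
        · by_cases e2 : dt u (act A B C D w') = 0
          · obtain ⟨m, hm, hW⟩ := prop_vec e2 hu (hval w' w1')
            exact ⟨m, w', hm, hW⟩
          · exfalso
            obtain ⟨q1, hq1⟩ := hrat u hu
            obtain ⟨q2, hq2⟩ := hratn _ (hval v' v1')
            obtain ⟨q3, hq3⟩ := hratn _ (hval w' w1')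
            refine three_rat i1 hne e1 e2 ?_ hq1 hq2 hq3
            rw [dt_act]
            exact mul_ne_zero hd0 hdt'
      obtain ⟨m, z, hm, hz⟩ := hmul v v1
      have hm0 : m ≠ 0 := by
        rintro rfl
        apply hn
        have : (n : ℤ) = 0 := by rw [hm]; ring
        exact_mod_cast this
      -- divisibility by `m`
      have hdv : ∀ u, |Fm ξ η u| = 1 / 3 → m ∣ D * u.1 - B * u.2 ∧ m ∣ -C * u.1 + A * u.2 := by
        intro u hu
        obtain ⟨m', z', hm', hz'⟩ := hmul u hu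
        have hmm : m' = m ∨ m' = -m := by
          have h1 : m' ^ 2 = m ^ 2 := by rw [← hm, ← hm']
          exact sq_eq_sq_iff_eq_or_eq_neg.1 h1
        have w1 := congrArg Prod.fst hz'
        have w2 := congrArg Prod.snd hz'
        simp only [act] at w1 w2
        have hm0' : m' ≠ 0 := by
          rcases hmm with h1 | h1 <;> rw [h1]
          · exact hm0
          · exact neg_ne_zero.2 hm0
        have hdd : (A * D - B * C) = m' ^ 2 ∨ (A * D - B * C) = -m' ^ 2 := by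
          rw [← hm']
          exact (abs_eq (Int.natCast_nonneg n)).1 hd
        have key : m' ∣ D * u.1 - B * u.2 ∧ m' ∣ -C * u.1 + A * u.2 := by
          have g1 : m' * (D * u.1 - B * u.2) = (A * D - B * C) * z'.1 := by
            linear_combination (-D) * w1 + B * w2
          have g2 : m' * (-C * u.1 + A * u.2) = (A * D - B * C) * z'.2 := by
            linear_combination C * w1 - A * w2
          rcases hdd with h1 | h1
          · rw [h1] at g1 g2
            exact ⟨⟨z'.1, mul_left_cancel₀ hm0' (by rw [g1]; ring)⟩,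
              ⟨z'.2, mul_left_cancel₀ hm0' (by rw [g2]; ring)⟩⟩
          · rw [h1] at g1 g2
            exact ⟨⟨-z'.1, mul_left_cancel₀ hm0' (by rw [g1]; ring)⟩,
              ⟨-z'.2, mul_left_cancel₀ hm0' (by rw [g2]; ring)⟩⟩
        rcases hmm with h1 | h1
        · rw [h1] at key
          exact key
        · rw [h1] at key
          exact ⟨(neg_dvd).1 key.1, (neg_dvd).1 key.2⟩
      obtain ⟨p1, p2⟩ := hdv v v1
      obtain ⟨p3, p4⟩ := hdv w w1
      have hdvd : m ∣ dt v w := by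
        apply hp.dvd_of
        · have : A * dt v w = (-C * w.1 + A * w.2) * v.1 - (-C * v.1 + A * v.2) * w.1 := by
            unfold dt
            ring
          rw [this]
          exact dvd_sub (Dvd.dvd.mul_right p4 _) (Dvd.dvd.mul_right p2 _)
        · have : B * dt v w = (D * v.1 - B * v.2) * w.1 - (D * w.1 - B * w.2) * v.1 := by
            unfold dt
            ring
          rw [this]
          exact dvd_sub (Dvd.dvd.mul_right p1 _) (Dvd.dvd.mul_right p3 _)
        · have : C * dt v w = (-C * w.1 + A * w.2) * v.2 - (-C * v.1 + A * v.2) * w.2 := by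
            unfold dt
            ring
          rw [this]
          exact dvd_sub (Dvd.dvd.mul_right p4 _) (Dvd.dvd.mul_right p2 _)
        · have : D * dt v w = (D * v.1 - B * v.2) * w.2 - (D * w.1 - B * w.2) * v.2 := by
            unfold dt
            ring
          rw [this]
          exact dvd_sub (Dvd.dvd.mul_right p1 _) (Dvd.dvd.mul_right p3 _)
      refine ⟨m.natAbs, ?_, ?_⟩
      · rw [dvd_abs, Int.natAbs_dvd]
        exact hdvd
      · have : ((m.natAbs ^ 2 : ℕ) : ℤ) = m ^ 2 := by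
          push_cast
          rw [sq_abs]
        exact_mod_cast hm.trans this.symm

end Pool.Agent.L3
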