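import Pool.Agent.Work.MP_5e120e_nt.Fin.Leaf

/-! # A limit leaf of a real number with Lagrange value at most 3 -/

namespace Pool.Agent.L3

open Filter Topology

theorem exists_leaf {x : ℝ} (hx : Irrational x) (hq : ¬ Quad x)
    (h1 : lagrangeValue x ≤ ((3 : ℝ) : EReal)) : ∃ (ξ s : ℝ) (φ : ℕ → ℕ), Tendsto φ atTop atTop ∧
      Tendsto (fun j => etaS x (φ j + 1)) atTop (𝓝 ξ) ∧
      Tendsto (fun j => sg x (φ j + 1)) atTop (𝓝 s) ∧ 1 ≤ ξ ∧ 0 ≤ s ∧ ¬ Per ξ (-s) := by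
  have hd1 : |(1 : ℤ) * 1 - 0 * 0| = (1 : ℕ) := by norm_num
  have h2 : lagrangeValue (((1 : ℤ) * x + (0 : ℤ)) / ((0 : ℤ) * x + (1 : ℤ))) ≤
      ((3 : ℝ) : EReal) := by
    push_cast
    simpa using h1
  -- bounds for the complete quotients
  have hup : ∀ᶠ k in atTop, etaS x (k + 1) ≤ 25 / 8 := by
    filter_upwards [base_bound one_ne_zero hx hd1 h1 h2 (ε := 1 / 100) (by norm_num)
      (w := (1, 0)) (by simp)] with k hk
    have h3 := hk.1
    have h4 := etaS_gt hx k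
    have h5 := sg_mem hx k
    unfold Fm at h3
    simp only [Int.cast_one, Int.cast_zero, mul_zero, sub_zero, mul_one, sub_neg_eq_add] at h3
    have h6 : 0 < etaS x (k + 1) + sg x (k + 1) := by linarith [h5.1]
    rw [abs_of_pos (by positivity), le_div_iff₀ h6] at h3
    nlinarith [h5.1]
  obtain ⟨K, hK⟩ := eventually_atTop.1 hup
  have hfrac : ∀ k, K ≤ k → 8 / 25 ≤ 1 / etaS x (k + 2) ∧ 1 / etaS x (k + 2) ≤ 25 / 33 := by
    intro k hk
    have h3 := hK (k + 1) (by omega)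
    have h4 := hK (k + 2) (by omega)
    have h5 := etaS_gt hx (k + 1)
    have h6 := etaS_gt hx (k + 2)
    have h7 := etaS_eq hx (k + 2)
    have h8 : (1 : ℝ) ≤ ⌊etaS x (k + 2)⌋ := by exact_mod_cast fl_pos hx (k + 1)
    have h9 : 8 / 25 ≤ 1 / etaS x (k + 3) := by
      rw [le_div_iff₀ (by linarith)]
      linarith
    have h10 : 33 / 25 ≤ etaS x (k + 2) := by
      rw [h7]
      have : etaS x (k + 2 + 1) = etaS x (k + 3) := rfl
      rw [this]
      linarith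
    constructor
    · rw [le_div_iff₀ (by linarith)]
      have : etaS x (k + 2) = etaS x (k + 1 + 1) := rfl
      linarith
    · rw [div_le_iff₀ (by linarith)]
      linarith
  have hpair : ∀ j : ℕ, ∃ k l : ℕ, K + j ≤ k ∧ K + j ≤ l ∧
      |sg x (k + 1) - sg x (l + 1)| < 1 / ((j : ℝ) + 1) ∧
      ⌊etaS x (k + 1)⌋ ≠ ⌊etaS x (l + 1)⌋ := by
    intro j
    obtain ⟨k, l, e1, e2, e3, e4, -⟩ := exists_pair hx hq (one_ne_zero (α := ℕ)) 1 0 0 1
      (1 / ((j : ℝ) + 1)) (by positivity) (K + j)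
    exact ⟨k, l, e1, e2, e3, e4⟩
  choose kk ll hk hl hs hne using hpair
  set Kc : Set (ℝ × ℝ × ℝ × ℝ) :=
    Set.Icc 1 4 ×ˢ (Set.Icc 1 4 ×ˢ (Set.Icc 0 1 ×ˢ Set.Icc 0 1)) with hKc
  have hcomp : IsCompact Kc := isCompact_Icc.prod (isCompact_Icc.prod
    (isCompact_Icc.prod isCompact_Icc))
  obtain ⟨⟨X₁, X₂, Y₁, Y₂⟩, hmem, ψ, hψ, hlim⟩ := hcomp.tendsto_subseq
    (x := fun j => (etaS x (kk j + 1), etaS x (ll j + 1), sg x (kk j + 1), sg x (ll j + 1)))
    (fun j => ⟨⟨(etaS_gt hx _).le, by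
        show etaS x (kk j + 1) ≤ 4
        linarith [hK (kk j) (by have := hk j; omega)]⟩,
      ⟨(etaS_gt hx _).le, by
        show etaS x (ll j + 1) ≤ 4
        linarith [hK (ll j) (by have := hl j; omega)]⟩, sg_mem hx _, sg_mem hx _⟩)
  obtain ⟨m1, m2, m3, m4⟩ := hmem
  simp only [Set.mem_Icc] at m1 m2 m3 m4
  have L1 : Tendsto (fun j => etaS x (kk (ψ j) + 1)) atTop (𝓝 X₁) :=
    (continuous_fst.tendsto _).comp hlim
  have L2 : Tendsto (fun j => etaS x (ll (ψ j) + 1)) atTop (𝓝 X₂) :=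
    ((continuous_fst.comp continuous_snd).tendsto _).comp hlim
  have L3 : Tendsto (fun j => sg x (kk (ψ j) + 1)) atTop (𝓝 Y₁) :=
    ((continuous_fst.comp (continuous_snd.comp continuous_snd)).tendsto _).comp hlim
  have L4 : Tendsto (fun j => sg x (ll (ψ j) + 1)) atTop (𝓝 Y₂) :=
    ((continuous_snd.comp (continuous_snd.comp continuous_snd)).tendsto _).comp hlim
  have Lε : Tendsto (fun j : ℕ => (1 : ℝ) / ((ψ j : ℝ) + 1)) atTop (𝓝 0) := by
    have h1 : Tendsto (fun j : ℕ => (ψ j : ℝ) + 1) atTop atTop :=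
      tendsto_atTop_add_const_right _ _ (tendsto_natCast_atTop_atTop.comp hψ.tendsto_atTop)
    exact tendsto_const_nhds.div_atTop h1
  have hY : Y₁ = Y₂ := by
    have h1 : Tendsto (fun j => |sg x (kk (ψ j) + 1) - sg x (ll (ψ j) + 1)|) atTop
        (𝓝 |Y₁ - Y₂|) := (L3.sub L4).abs
    have h2 : |Y₁ - Y₂| ≤ 0 := le_of_tendsto_of_tendsto' h1 Lε (fun j => (hs (ψ j)).le)
    have h3 : |Y₁ - Y₂| = 0 := le_antisymm h2 (abs_nonneg _)
    linarith [abs_eq_zero.1 h3]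
  subst hY
  have hXX : X₁ ≠ X₂ := by
    intro h0
    have h1 : Tendsto (fun j => |etaS x (kk (ψ j) + 1) - etaS x (ll (ψ j) + 1)|) atTop
        (𝓝 |X₁ - X₂|) := (L1.sub L2).abs
    have h2 : 1 / 4 ≤ |X₁ - X₂| := by
      refine ge_of_tendsto' h1 (fun j => ?_)
      have e1 := etaS_eq hx (kk (ψ j) + 1)
      have e2 := etaS_eq hx (ll (ψ j) + 1)
      have f1 := hfrac (kk (ψ j)) (by have := hk (ψ j); omega)
      have f2 := hfrac (ll (ψ j)) (by have := hl (ψ j); omega)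
      have g1 : (1 : ℝ) ≤
          |((⌊etaS x (kk (ψ j) + 1)⌋ - ⌊etaS x (ll (ψ j) + 1)⌋ : ℤ) : ℝ)| := by
        have : (1 : ℤ) ≤ |⌊etaS x (kk (ψ j) + 1)⌋ - ⌊etaS x (ll (ψ j) + 1)⌋| :=
          Int.one_le_abs (sub_ne_zero.2 (hne (ψ j)))
        exact_mod_cast this
      have g2 : ((⌊etaS x (kk (ψ j) + 1)⌋ - ⌊etaS x (ll (ψ j) + 1)⌋ : ℤ) : ℝ) =
          (etaS x (kk (ψ j) + 1) - etaS x (ll (ψ j) + 1)) -
            (1 / etaS x (kk (ψ j) + 2) - 1 / etaS x (ll (ψ j) + 2)) := by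
        push_cast
        have : etaS x (kk (ψ j) + 1 + 1) = etaS x (kk (ψ j) + 2) := rfl
        have : etaS x (ll (ψ j) + 1 + 1) = etaS x (ll (ψ j) + 2) := rfl
        linarith
      rw [g2] at g1
      have g3 := abs_sub (etaS x (kk (ψ j) + 1) - etaS x (ll (ψ j) + 1))
        (1 / etaS x (kk (ψ j) + 2) - 1 / etaS x (ll (ψ j) + 2))
      have g4 : |1 / etaS x (kk (ψ j) + 2) - 1 / etaS x (ll (ψ j) + 2)| ≤ 1 / 2 := by
        rw [abs_le]
        constructor <;> linarith [f1.1, f1.2, f2.1, f2.2]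
      linarith
    rw [h0, sub_self, abs_zero] at h2
    linarith
  have hφ1 : Tendsto (fun j => kk (ψ j)) atTop atTop := by
    refine tendsto_atTop_mono (fun j => ?_) hψ.tendsto_atTop
    have := hk (ψ j)
    omega
  have hφ2 : Tendsto (fun j => ll (ψ j)) atTop atTop := by
    refine tendsto_atTop_mono (fun j => ?_) hψ.tendsto_atTop
    have := hl (ψ j)
    omega
  by_cases hp : Per X₁ (-Y₁)
  · refine ⟨X₂, Y₁, fun j => ll (ψ j), hφ2, L2, L4, m2.1, m3.1, fun hp2 => hXX ?_⟩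
    have hres : ∀ j, rd 1 (FM 1 0 0 1 x (kk (ψ j))) = rd 1 !![1, 0; 0, 1] :=
      fun j => Subsingleton.elim _ _
    have hb := lim_bounds one_ne_zero hx hd1 h1 h2 (by norm_num) hφ1 hres L1 L3 m1.1 m3.1
    refine per_unique (irr_of_form hb.1).2 ?_ ?_ hp hp2
    · intro h0
      linarith [m1.1, m3.1]
    · intro h0
      linarith [m2.1, m3.1]
  · exact ⟨X₁, Y₁, fun j => kk (ψ j), hφ1, L1, L3, m1.1, m3.1, hp⟩

theorem Prim.mul {a b c d p q r s : ℤ} (h : Prim a b c d) (hd : |p * s - q * r| = 1) :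
    Prim (a * p + b * r) (a * q + b * s) (c * p + d * r) (c * q + d * s) := by
  intro e h1 h2 h3 h4
  have hD : (p * s - q * r) * (p * s - q * r) = 1 := by
    rcases (abs_eq zero_le_one).1 hd with h1 | h1 <;> rw [h1] <;> norm_num
  apply h
  · have : a = (p * s - q * r) * (s * (a * p + b * r) - r * (a * q + b * s)) := by
      linear_combination (-a) * hD
    rw [this]
    exact Dvd.dvd.mul_left (dvd_sub (Dvd.dvd.mul_left h1 _) (Dvd.dvd.mul_left h2 _)) _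
  · have : b = (p * s - q * r) * (p * (a * q + b * s) - q * (a * p + b * r)) := by
      linear_combination (-b) * hD
    rw [this]
    exact Dvd.dvd.mul_left (dvd_sub (Dvd.dvd.mul_left h2 _) (Dvd.dvd.mul_left h1 _)) _
  · have : c = (p * s - q * r) * (s * (c * p + d * r) - r * (c * q + d * s)) := by
      linear_combination (-c) * hD
    rw [this]
    exact Dvd.dvd.mul_left (dvd_sub (Dvd.dvd.mul_left h3 _) (Dvd.dvd.mul_left h4 _)) _
  · have : d = (p * s - q * r) * (p * (c * q + d * s) - q * (c * p + d * r)) := by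
      linear_combination (-d) * hD
    rw [this]
    exact Dvd.dvd.mul_left (dvd_sub (Dvd.dvd.mul_left h4 _) (Dvd.dvd.mul_left h3 _)) _

/-- **Theorem.** Primitive matrices between numbers with Lagrange value at most `3`. -/
theorem main_fin {x : ℝ} (hx : Irrational x) (hq : ¬ Quad x)
    (h1 : lagrangeValue x ≤ ((3 : ℝ) : EReal)) : ∃ M : ℤ, IsMarkov M ∧ ∀ a b c d : ℤ,
      Prim a b c d → a * d - b * c ≠ 0 →
      lagrangeValue ((a * x + b) / (c * x + d)) ≤ ((3 : ℝ) : EReal) →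
      ∃ m : ℕ, (m : ℤ) ∣ M ∧ |a * d - b * c| = (m : ℤ) ^ 2 := by
  obtain ⟨ξ, s, φ, hφ, L1, L2, hξ, hs, hnp⟩ := exists_leaf hx hq h1
  have hd1 : |(1 : ℤ) * 1 - 0 * 0| = (1 : ℕ) := by norm_num
  have h2 : lagrangeValue (((1 : ℤ) * x + (0 : ℤ)) / ((0 : ℤ) * x + (1 : ℤ))) ≤
      ((3 : ℝ) : EReal) := by
    push_cast
    simpa using h1
  have hne : ξ ≠ -s := by
    intro h0
    linarith
  have hb := lim_bounds one_ne_zero hx hd1 h1 h2 (by norm_num) hφ
    (fun j => Subsingleton.elim _ (rd 1 !![1, 0; 0, 1])) L1 L2 hξ hs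
  obtain ⟨M, hM, hleaf⟩ := leaf hne hb.1 hnp
  refine ⟨M, hM, fun a b c d hp hd0 hy => ?_⟩
  set n : ℕ := (a * d - b * c).natAbs with hn
  have hn0 : n ≠ 0 := Int.natAbs_ne_zero.2 hd0
  have : NeZero n := ⟨hn0⟩
  have hd : |a * d - b * c| = n := Int.abs_eq_natAbs _
  obtain ⟨R, hR⟩ := Finite.exists_infinite_fiber (fun j => rd n (FM a b c d x (φ j)))
  have hR' : {j | rd n (FM a b c d x (φ j)) = R}.Infinite := Set.infinite_coe_iff.1 hR
  obtain ⟨ψ, hψ, hψR⟩ := extraction_of_frequently_atTop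
    (Nat.frequently_atTop_iff_infinite.2 hR')
  set α := FM a b c d x (φ (ψ 0)) 0 0 with hα
  set β := FM a b c d x (φ (ψ 0)) 0 1 with hβ
  set γ := FM a b c d x (φ (ψ 0)) 1 0 with hγ
  set δ := FM a b c d x (φ (ψ 0)) 1 1 with hδ
  have hFM : FM a b c d x (φ (ψ 0)) = !![α, β; γ, δ] := by
    rw [hα, hβ, hγ, hδ]
    exact Matrix.eta_fin_two _
  have hdet : |α * δ - β * γ| = n := by
    have h3 := FM_det a b c d x (φ (ψ 0))
    rw [hFM, Matrix.det_fin_two_of] at h3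
    rw [h3, hd]
  have hres : ∀ j, rd n (FM a b c d x (φ (ψ j))) = rd n !![α, β; γ, δ] := by
    intro j
    rw [← hFM]
    exact (hψR j).trans (hψR 0).symm
  have hb2 := lim_bounds hn0 hx hd h1 hy hdet (hφ.comp hψ.tendsto_atTop) hres
    (L1.comp hψ.tendsto_atTop) (L2.comp hψ.tendsto_atTop) hξ hs
  have hprim : Prim α β γ δ := by
    have h3 := hp.mul (p := (fr x (φ (ψ 0) + 1)).1.1) (q := (fr x (φ (ψ 0) + 1)).2.1)
      (r := (fr x (φ (ψ 0) + 1)).1.2) (s := (fr x (φ (ψ 0) + 1)).2.2) (fr_det _)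
    have e1 : α = a * (fr x (φ (ψ 0) + 1)).1.1 + b * (fr x (φ (ψ 0) + 1)).1.2 := by
      rw [hα]
      simp [FM, Matrix.mul_apply, Fin.sum_univ_two]
    have e2 : β = a * (fr x (φ (ψ 0) + 1)).2.1 + b * (fr x (φ (ψ 0) + 1)).2.2 := by
      rw [hβ]
      simp [FM, Matrix.mul_apply, Fin.sum_univ_two]
    have e3 : γ = c * (fr x (φ (ψ 0) + 1)).1.1 + d * (fr x (φ (ψ 0) + 1)).1.2 := by
      rw [hγ]
      simp [FM, Matrix.mul_apply, Fin.sum_univ_two]
    have e4 : δ = c * (fr x (φ (ψ 0) + 1)).2.1 + d * (fr x (φ (ψ 0) + 1)).2.2 := by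
      rw [hδ]
      simp [FM, Matrix.mul_apply, Fin.sum_univ_two]
    rw [e1, e2, e3, e4]
    exact h3
  obtain ⟨m, hm1, hm2⟩ := hleaf n δ (-β) (-γ) α hn0 (by
    rw [← hdet]
    congr 1
    ring) (fun e e1 e2 e3 e4 => hprim e e4 ((dvd_neg).1 e2) ((dvd_neg).1 e3) e1) hb2.2
  refine ⟨m, hm1, ?_⟩
  rw [hd, hm2]
  push_cast
  rfl

end Pool.Agent.L3
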