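import Pool.Agent.Work.MP_5e120e_nt.Fin.LimX

/-! # The uniform gap -/

namespace Pool.Agent.L3

open Filter Topology

theorem exists_data' {n : ℕ} (hn : n ≠ 0) {x : ℝ} (hx : Irrational x) (hq : ¬ Quad x)
    {a b c d : ℤ} (hprim : Prim a b c d) (hd : |a * d - b * c| = n) {ε : ℝ} (hε : 0 < ε) (hε1 : ε ≤ 1 / 100) {N : ℕ}
    (hN : 1 ≤ N) (h1 : lagrangeValue x < ((3 + ε / n : ℝ) : EReal))
    (h2 : lagrangeValue ((a * x + b) / (c * x + d)) < ((3 + ε / n : ℝ) : EReal)) :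
    ∃ (ξ₁ ξ₂ s₁ s₂ : ℝ) (α β γ δ : ℤ), Prim α β γ δ ∧ |α * δ - β * γ| = n ∧ (1 ≤ ξ₁ ∧ ξ₁ ≤ 4) ∧
      (1 ≤ ξ₂ ∧ ξ₂ ≤ 4) ∧ (0 ≤ s₁ ∧ s₁ ≤ 1) ∧ (0 ≤ s₂ ∧ s₂ ≤ 1) ∧ |s₁ - s₂| ≤ ε ∧
      1 / 4 ≤ |ξ₁ - ξ₂| ∧ Dat n ε N ξ₁ s₁ α β γ δ ∧ Dat n ε N ξ₂ s₂ α β γ δ := by
  have hn' : (0 : ℝ) < n := by exact_mod_cast Nat.pos_of_ne_zero hn
  have hn1 : (1 : ℝ) ≤ n := by exact_mod_cast Nat.one_le_iff_ne_zero.2 hn
  set C : ℝ := 3 + ε / n with hC
  have hεn : 0 < ε / n := by positivity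
  have hεn' : ε / n ≤ ε := div_le_self hε.le hn1
  have hC3 : 3 < C := by linarith
  obtain ⟨T₁, hT₁⟩ := low_of_lagr hx (by linarith) h1
  obtain ⟨T₂, hT₂⟩ := low_of_lagr' hx (by linarith) hn hd h2 (half_pos hε)
  have hb1 : 1 / 3 - ε ≤ 1 / C := by
    rw [le_div_iff₀ (by linarith)]
    nlinarith
  have hb2 : (n : ℝ) / 3 - ε ≤ n / C - ε / 2 := by
    have h3 : (n : ℝ) / 3 - n / C ≤ ε / 2 := by
      have h4 : (n : ℝ) / 3 - n / C = ε / (3 * C) := by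
        have hCne : C ≠ 0 := by linarith
        have h5 : C - 3 = ε / n := by rw [hC]; ring
        have h6 : (n : ℝ) / 3 - n / C = n * (C - 3) / (3 * C) := by
          field_simp
        rw [h6, h5]
        field_simp
      rw [h4, div_le_iff₀ (by linarith)]
      nlinarith
    linarith
  -- the late frames
  have hden : ∀ w : ℤ × ℤ, ∃ K : ℕ, w ≠ 0 → ∀ k, K ≤ k → ((max T₁ T₂ : ℕ) : ℤ) ≤
      |(fr x (k + 1)).1.2 * w.1 + (fr x (k + 1)).2.2 * w.2| := by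
    intro w
    by_cases hw : w = 0
    · exact ⟨0, fun h => absurd hw h⟩
    · obtain ⟨K, hK⟩ := den_large hx hw (max T₁ T₂)
      exact ⟨K, fun _ => hK⟩
  choose Kw hKw using hden
  set box : Finset (ℤ × ℤ) := Finset.Icc (-(N : ℤ)) N ×ˢ Finset.Icc (-(N : ℤ)) N with hbox
  set K := box.sup Kw with hK
  have hbase : ∀ k, K ≤ k → ∀ w : ℤ × ℤ, w ≠ 0 → |w.1| ≤ N → |w.2| ≤ N →
      1 / 3 - ε ≤ |Fm (etaS x (k + 1)) (-sg x (k + 1)) w| ∧
      ((n : ℤ) ∣ (a * (fr x (k + 1)).1.1 + b * (fr x (k + 1)).1.2) * w.1 +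
          (a * (fr x (k + 1)).2.1 + b * (fr x (k + 1)).2.2) * w.2 →
        (n : ℤ) ∣ (c * (fr x (k + 1)).1.1 + d * (fr x (k + 1)).1.2) * w.1 +
          (c * (fr x (k + 1)).2.1 + d * (fr x (k + 1)).2.2) * w.2 →
        n / 3 - ε ≤ |Fm (etaS x (k + 1)) (-sg x (k + 1)) w|) := by
    intro k hk w hw hw1 hw2
    have hmem : w ∈ box := by
      rw [hbox, Finset.mem_product, Finset.mem_Icc, Finset.mem_Icc]
      exact ⟨abs_le.1 hw1, abs_le.1 hw2⟩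
    have h3 := hKw w hw k ((Finset.le_sup hmem).trans hk)
    rw [← form_frame hx k w]
    have h4 : (T₁ : ℤ) ≤ ((max T₁ T₂ : ℕ) : ℤ) := by exact_mod_cast le_max_left _ _
    have h5 : (T₂ : ℤ) ≤ ((max T₁ T₂ : ℕ) : ℤ) := by exact_mod_cast le_max_right _ _
    refine ⟨hb1.trans (hT₁ _ _ (h4.trans h3)), fun d1 d2 => hb2.trans (hT₂ _ _ (h5.trans h3) ?_ ?_)⟩
    · have e : a * ((fr x (k + 1)).1.1 * w.1 + (fr x (k + 1)).2.1 * w.2) +
          b * ((fr x (k + 1)).1.2 * w.1 + (fr x (k + 1)).2.2 * w.2) =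
          (a * (fr x (k + 1)).1.1 + b * (fr x (k + 1)).1.2) * w.1 +
          (a * (fr x (k + 1)).2.1 + b * (fr x (k + 1)).2.2) * w.2 := by ring
      rw [e]
      exact d1
    · have e : c * ((fr x (k + 1)).1.1 * w.1 + (fr x (k + 1)).2.1 * w.2) +
          d * ((fr x (k + 1)).1.2 * w.1 + (fr x (k + 1)).2.2 * w.2) =
          (c * (fr x (k + 1)).1.1 + d * (fr x (k + 1)).1.2) * w.1 +
          (c * (fr x (k + 1)).2.1 + d * (fr x (k + 1)).2.2) * w.2 := by ring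
      rw [e]
      exact d2
  -- bounds for the complete quotients
  have hup : ∀ k, K ≤ k → etaS x (k + 1) ≤ 25 / 8 := by
    intro k hk
    have h3 := (hbase k hk (1, 0) (by simp) (by simpa using hN) (by simp)).1
    have h4 := etaS_gt hx k
    have h5 := sg_mem hx k
    unfold Fm at h3
    simp only [Int.cast_one, Int.cast_zero, mul_zero, sub_zero, mul_one, sub_neg_eq_add] at h3
    have h6 : 0 < etaS x (k + 1) + sg x (k + 1) := by linarith [h5.1]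
    rw [abs_of_pos (by positivity), le_div_iff₀ h6] at h3
    nlinarith [h5.1]
  obtain ⟨k, l, hk, hl, hs, hne, hG⟩ := exists_pair hx hq hn a b c d ε hε K
  have hG00 := hG 0 0
  have hG01 := hG 0 1
  have hG10 := hG 1 0
  have hG11 := hG 1 1
  simp only [Matrix.cons_val_zero, Matrix.cons_val_one] at hG00 hG01 hG10 hG11
  rw [ZMod.intCast_eq_intCast_iff_dvd_sub] at hG00 hG01 hG10 hG11
  have hdet := fr_det (x := x) (k + 1)
  have hfrac : ∀ k, K ≤ k → 8 / 25 ≤ 1 / etaS x (k + 2) ∧ 1 / etaS x (k + 2) ≤ 25 / 33 := by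
    intro k hk
    have h3 := hup (k + 1) (by omega)
    have h4 := hup (k + 2) (by omega)
    have h5 := etaS_gt hx (k + 1)
    have h6 := etaS_gt hx (k + 2)
    have h7 := etaS_eq hx (k + 2)
    have h8 : (1 : ℝ) ≤ ⌊etaS x (k + 2)⌋ := by exact_mod_cast fl_pos hx (k + 1)
    have h9 : 8 / 25 ≤ 1 / etaS x (k + 3) := by
      rw [le_div_iff₀ (by linarith)]
      linarith
    have h10 : 33 / 25 ≤ etaS x (k + 2) := by
      rw [h7]
      have : etaS x (k + 2 + 1) = etaS x (k + 3) := rfl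
      rw [this]
      linarith
    constructor
    · rw [le_div_iff₀ (by linarith)]
      have : etaS x (k + 2) = etaS x (k + 1 + 1) := rfl
      linarith
    · rw [div_le_iff₀ (by linarith)]
      linarith
  refine ⟨etaS x (k + 1), etaS x (l + 1), sg x (k + 1), sg x (l + 1),
    a * (fr x (k + 1)).1.1 + b * (fr x (k + 1)).1.2, a * (fr x (k + 1)).2.1 +
    b * (fr x (k + 1)).2.2, c * (fr x (k + 1)).1.1 + d * (fr x (k + 1)).1.2,
    c * (fr x (k + 1)).2.1 + d * (fr x (k + 1)).2.2, hprim.mul (fr_det _), ?_, ⟨(etaS_gt hx k).le, ?_⟩,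
    ⟨(etaS_gt hx l).le, ?_⟩, sg_mem hx k, sg_mem hx l, hs.le, ?_, hbase k hk, ?_⟩
  · have e : (a * (fr x (k + 1)).1.1 + b * (fr x (k + 1)).1.2) *
        (c * (fr x (k + 1)).2.1 + d * (fr x (k + 1)).2.2) -
        (a * (fr x (k + 1)).2.1 + b * (fr x (k + 1)).2.2) *
        (c * (fr x (k + 1)).1.1 + d * (fr x (k + 1)).1.2) =
        (a * d - b * c) * ((fr x (k + 1)).1.1 * (fr x (k + 1)).2.2 -
          (fr x (k + 1)).2.1 * (fr x (k + 1)).1.2) := by ring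
    rw [e, abs_mul, hd, hdet, mul_one]
  · linarith [hup k hk]
  · linarith [hup l hl]
  · have e1 := etaS_eq hx (k + 1)
    have e2 := etaS_eq hx (l + 1)
    have f1 := hfrac k hk
    have f2 := hfrac l hl
    have g1 : (1 : ℝ) ≤ |((⌊etaS x (k + 1)⌋ - ⌊etaS x (l + 1)⌋ : ℤ) : ℝ)| := by
      have : (1 : ℤ) ≤ |⌊etaS x (k + 1)⌋ - ⌊etaS x (l + 1)⌋| := Int.one_le_abs (sub_ne_zero.2 hne)
      exact_mod_cast this
    have g2 : ((⌊etaS x (k + 1)⌋ - ⌊etaS x (l + 1)⌋ : ℤ) : ℝ) =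
        (etaS x (k + 1) - etaS x (l + 1)) - (1 / etaS x (k + 2) - 1 / etaS x (l + 2)) := by
      push_cast
      have : etaS x (k + 1 + 1) = etaS x (k + 2) := rfl
      have : etaS x (l + 1 + 1) = etaS x (l + 2) := rfl
      linarith
    rw [g2] at g1
    have g3 := abs_sub (etaS x (k + 1) - etaS x (l + 1)) (1 / etaS x (k + 2) - 1 / etaS x (l + 2))
    have g4 : |1 / etaS x (k + 2) - 1 / etaS x (l + 2)| ≤ 1 / 2 := by
      rw [abs_le]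
      constructor <;> linarith [f1.1, f1.2, f2.1, f2.2]
    linarith
  · intro w hw hw1 hw2
    obtain ⟨b1, b2⟩ := hbase l hl w hw hw1 hw2
    refine ⟨b1, fun d1 d2 => b2 ?_ ?_⟩
    · have e : (a * (fr x (l + 1)).1.1 + b * (fr x (l + 1)).1.2) * w.1 +
          (a * (fr x (l + 1)).2.1 + b * (fr x (l + 1)).2.2) * w.2 =
          ((a * (fr x (k + 1)).1.1 + b * (fr x (k + 1)).1.2) * w.1 +
          (a * (fr x (k + 1)).2.1 + b * (fr x (k + 1)).2.2) * w.2) +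
          (a * (fr x (l + 1)).1.1 + b * (fr x (l + 1)).1.2 -
            (a * (fr x (k + 1)).1.1 + b * (fr x (k + 1)).1.2)) * w.1 +
          (a * (fr x (l + 1)).2.1 + b * (fr x (l + 1)).2.2 -
            (a * (fr x (k + 1)).2.1 + b * (fr x (k + 1)).2.2)) * w.2 := by ring
      rw [e]
      exact dvd_add (dvd_add d1 (Dvd.dvd.mul_right hG00 _)) (Dvd.dvd.mul_right hG01 _)
    · have e : (c * (fr x (l + 1)).1.1 + d * (fr x (l + 1)).1.2) * w.1 +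
          (c * (fr x (l + 1)).2.1 + d * (fr x (l + 1)).2.2) * w.2 =
          ((c * (fr x (k + 1)).1.1 + d * (fr x (k + 1)).1.2) * w.1 +
          (c * (fr x (k + 1)).2.1 + d * (fr x (k + 1)).2.2) * w.2) +
          (c * (fr x (l + 1)).1.1 + d * (fr x (l + 1)).1.2 -
            (c * (fr x (k + 1)).1.1 + d * (fr x (k + 1)).1.2)) * w.1 +
          (c * (fr x (l + 1)).2.1 + d * (fr x (l + 1)).2.2 -
            (c * (fr x (k + 1)).2.1 + d * (fr x (k + 1)).2.2)) * w.2 := by ring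
      rw [e]
      exact dvd_add (dvd_add d2 (Dvd.dvd.mul_right hG10 _)) (Dvd.dvd.mul_right hG11 _)

/-- the limit -/
theorem data_contra' {n : ℕ} (hn0 : n ≠ 0)
    (hn : ¬ ∃ (c : ℕ) (M : ℤ), IsMarkov M ∧ (c : ℤ) ∣ M ∧ n = c ^ 2)
    (h : ∀ j : ℕ, ∃ (ξ₁ ξ₂ s₁ s₂ : ℝ) (α β γ δ : ℤ), Prim α β γ δ ∧ |α * δ - β * γ| = n ∧ (1 ≤ ξ₁ ∧ ξ₁ ≤ 4) ∧
      (1 ≤ ξ₂ ∧ ξ₂ ≤ 4) ∧ (0 ≤ s₁ ∧ s₁ ≤ 1) ∧ (0 ≤ s₂ ∧ s₂ ≤ 1) ∧ |s₁ - s₂| ≤ 1 / (j + 100) ∧
      1 / 4 ≤ |ξ₁ - ξ₂| ∧ Dat n (1 / (j + 100)) (j + 1) ξ₁ s₁ α β γ δ ∧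
      Dat n (1 / (j + 100)) (j + 1) ξ₂ s₂ α β γ δ) : False := by
  have : NeZero n := ⟨hn0⟩
  choose ξ₁ ξ₂ s₁ s₂ α β γ δ hprim hdet hξ₁ hξ₂ hs₁ hs₂ hss hξξ hD₁ hD₂ using h
  -- constant residues
  let ρ : ℕ → ZMod n × ZMod n × ZMod n × ZMod n := fun j => (α j, β j, γ j, δ j)
  obtain ⟨r, hr⟩ := Finite.exists_infinite_fiber ρ
  have hr' : {j | ρ j = r}.Infinite := Set.infinite_coe_iff.1 hr
  obtain ⟨φ, hφ, hφr⟩ := extraction_of_frequently_atTop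
    (Nat.frequently_atTop_iff_infinite.2 hr')
  -- compactness
  set Kc : Set (ℝ × ℝ × ℝ × ℝ) :=
    Set.Icc 1 4 ×ˢ (Set.Icc 1 4 ×ˢ (Set.Icc 0 1 ×ˢ Set.Icc 0 1)) with hKc
  have hcomp : IsCompact Kc := isCompact_Icc.prod (isCompact_Icc.prod
    (isCompact_Icc.prod isCompact_Icc))
  obtain ⟨⟨X₁, X₂, Y₁, Y₂⟩, hmem, ψ, hψ, hlim⟩ := hcomp.tendsto_subseq
    (x := fun j => (ξ₁ (φ j), ξ₂ (φ j), s₁ (φ j), s₂ (φ j)))
    (fun j => ⟨hξ₁ _, hξ₂ _, hs₁ _, hs₂ _⟩)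
  obtain ⟨m1, m2, m3, m4⟩ := hmem
  simp only [Set.mem_Icc] at m1 m2 m3 m4
  set θ : ℕ → ℕ := fun j => φ (ψ j) with hθ
  have hθm : StrictMono θ := hφ.comp hψ
  have hθge : ∀ j, j ≤ θ j := fun j => hθm.le_apply
  have L1 : Tendsto (fun j => ξ₁ (θ j)) atTop (𝓝 X₁) :=
    (continuous_fst.tendsto _).comp hlim
  have L2 : Tendsto (fun j => ξ₂ (θ j)) atTop (𝓝 X₂) :=
    ((continuous_fst.comp continuous_snd).tendsto _).comp hlim
  have L3 : Tendsto (fun j => s₁ (θ j)) atTop (𝓝 Y₁) :=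
    ((continuous_fst.comp (continuous_snd.comp continuous_snd)).tendsto _).comp hlim
  have L4 : Tendsto (fun j => s₂ (θ j)) atTop (𝓝 Y₂) :=
    ((continuous_snd.comp (continuous_snd.comp continuous_snd)).tendsto _).comp hlim
  have Lε : Tendsto (fun j : ℕ => (1 : ℝ) / ((θ j : ℝ) + 100)) atTop (𝓝 0) := by
    have h1 : Tendsto (fun j : ℕ => (θ j : ℝ) + 100) atTop atTop :=
      tendsto_atTop_add_const_right _ _ (tendsto_natCast_atTop_atTop.comp hθm.tendsto_atTop)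
    exact tendsto_const_nhds.div_atTop h1
  -- the common root
  have hY : Y₁ = Y₂ := by
    have h1 : Tendsto (fun j => |s₁ (θ j) - s₂ (θ j)|) atTop (𝓝 |Y₁ - Y₂|) := (L3.sub L4).abs
    have h2 : |Y₁ - Y₂| ≤ 0 := le_of_tendsto_of_tendsto' h1 Lε (fun j => hss (θ j))
    have h3 : |Y₁ - Y₂| = 0 := le_antisymm h2 (abs_nonneg _)
    linarith [abs_eq_zero.1 h3]
  subst hY
  have hXX : X₁ ≠ X₂ := by
    intro h0
    have h1 : Tendsto (fun j => |ξ₁ (θ j) - ξ₂ (θ j)|) atTop (𝓝 |X₁ - X₂|) := (L1.sub L2).abs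
    have h2 : 1 / 4 ≤ |X₁ - X₂| := ge_of_tendsto' h1 (fun j => hξξ (θ j))
    rw [h0, sub_self, abs_zero] at h2
    linarith
  have hF : ∀ {ξ s : ℕ → ℝ} {X Y : ℝ}, Tendsto (fun j => ξ (θ j)) atTop (𝓝 X) →
      Tendsto (fun j => s (θ j)) atTop (𝓝 Y) → 1 ≤ X → 0 ≤ Y → ∀ w : ℤ × ℤ,
      Tendsto (fun j => |Fm (ξ (θ j)) (-s (θ j)) w|) atTop (𝓝 |Fm X (-Y) w|) := by
    intro ξ s X Y h1 h2 h3 h4 w
    apply Tendsto.abs
    unfold Fm
    apply Tendsto.div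
    · exact (tendsto_const_nhds.sub (h1.mul_const _)).mul
        (tendsto_const_nhds.sub (h2.neg.mul_const _))
    · exact h1.sub h2.neg
    · intro h0
      linarith
  have hres : ∀ j, ρ (θ j) = ρ (θ 0) := fun j => (hφr _).trans (hφr _).symm
  have hbound : ∀ {ξ s : ℕ → ℝ} {X Y : ℝ}, Tendsto (fun j => ξ (θ j)) atTop (𝓝 X) →
      Tendsto (fun j => s (θ j)) atTop (𝓝 Y) → 1 ≤ X → 0 ≤ Y →
      (∀ j : ℕ, Dat n (1 / ((j : ℝ) + 100)) (j + 1) (ξ j) (s j) (α j) (β j) (γ j) (δ j)) →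
      (∀ w : ℤ × ℤ, w ≠ 0 → 1 / 3 ≤ |Fm X (-Y) w|) ∧
      (∀ w : ℤ × ℤ, w ≠ 0 → n / 3 ≤
        |Fm X (-Y) (act (δ (θ 0)) (-β (θ 0)) (-γ (θ 0)) (α (θ 0)) w)|) := by
    intro ξ s X Y h1 h2 h3 h4 hD
    have hlarge : ∀ w : ℤ × ℤ, ∀ᶠ j in atTop, |w.1| ≤ ((θ j + 1 : ℕ) : ℤ) ∧
        |w.2| ≤ ((θ j + 1 : ℕ) : ℤ) := by
      intro w
      filter_upwards [eventually_ge_atTop (w.1.natAbs + w.2.natAbs)] with j hj
      have := hθge j
      constructor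
      · rw [Int.abs_eq_natAbs]
        exact_mod_cast (by omega : w.1.natAbs ≤ θ j + 1)
      · rw [Int.abs_eq_natAbs]
        exact_mod_cast (by omega : w.2.natAbs ≤ θ j + 1)
    constructor
    · intro w hw
      have h5 := hF h1 h2 h3 h4 w
      have h6 : Tendsto (fun j : ℕ => (1 : ℝ) / 3 - 1 / ((θ j : ℝ) + 100)) atTop
          (𝓝 (1 / 3 - 0)) := tendsto_const_nhds.sub Lε
      rw [sub_zero] at h6
      refine le_of_tendsto_of_tendsto h6 h5 ?_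
      filter_upwards [hlarge w] with j hj
      exact (hD (θ j) w hw hj.1 hj.2).1
    · intro w hw
      have hd0 : δ (θ 0) * α (θ 0) - -β (θ 0) * -γ (θ 0) ≠ 0 := by
        intro h0
        have h7 := hdet (θ 0)
        have h8 : α (θ 0) * δ (θ 0) - β (θ 0) * γ (θ 0) = 0 := by linarith
        rw [h8] at h7
        simp at h7
        exact hn0 (by exact_mod_cast h7.symm)
      have hW := act_ne hd0 hw
      set W := act (δ (θ 0)) (-β (θ 0)) (-γ (θ 0)) (α (θ 0)) w with hWdef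
      have h5 := hF h1 h2 h3 h4 W
      have h6 : Tendsto (fun j : ℕ => (n : ℝ) / 3 - 1 / ((θ j : ℝ) + 100)) atTop
          (𝓝 (n / 3 - 0)) := tendsto_const_nhds.sub Lε
      rw [sub_zero] at h6
      refine le_of_tendsto_of_tendsto h6 h5 ?_
      filter_upwards [hlarge W] with j hj
      have hndet : (n : ℤ) ∣ α (θ 0) * δ (θ 0) - β (θ 0) * γ (θ 0) := by
        rw [← dvd_abs, hdet (θ 0)]
      have e := hres j
      simp only [ρ, Prod.mk.injEq] at e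
      obtain ⟨ea, eb, ec, ed⟩ := e
      have ea' := (ZMod.intCast_eq_intCast_iff_dvd_sub _ _ n).1 ea.symm
      have eb' := (ZMod.intCast_eq_intCast_iff_dvd_sub _ _ n).1 eb.symm
      have ec' := (ZMod.intCast_eq_intCast_iff_dvd_sub _ _ n).1 ec.symm
      have ed' := (ZMod.intCast_eq_intCast_iff_dvd_sub _ _ n).1 ed.symm
      refine (hD (θ j) W hW hj.1 hj.2).2 ?_ ?_
      · have e1 : α (θ j) * W.1 + β (θ j) * W.2 =
            (α (θ 0) * δ (θ 0) - β (θ 0) * γ (θ 0)) * w.1 + (α (θ j) - α (θ 0)) * W.1 +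
              (β (θ j) - β (θ 0)) * W.2 := by
          rw [hWdef]
          simp only [act]
          ring
        rw [e1]
        exact dvd_add (dvd_add (Dvd.dvd.mul_right hndet _) (Dvd.dvd.mul_right ea' _))
          (Dvd.dvd.mul_right eb' _)
      · have e1 : γ (θ j) * W.1 + δ (θ j) * W.2 =
            (α (θ 0) * δ (θ 0) - β (θ 0) * γ (θ 0)) * w.2 + (γ (θ j) - γ (θ 0)) * W.1 +
              (δ (θ j) - δ (θ 0)) * W.2 := by
          rw [hWdef]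
          simp only [act]
          ring
        rw [e1]
        exact dvd_add (dvd_add (Dvd.dvd.mul_right hndet _) (Dvd.dvd.mul_right ec' _))
          (Dvd.dvd.mul_right ed' _)
  obtain ⟨q1, l1⟩ := hbound L1 L3 m1.1 m3.1 hD₁
  obtain ⟨q2, l2⟩ := hbound L2 L4 m2.1 m3.1 hD₂
  have hp0 := hprim (θ 0)
  have hprim' : Prim (δ (θ 0)) (-β (θ 0)) (-γ (θ 0)) (α (θ 0)) :=
    fun e e1 e2 e3 e4 => hp0 e e4 ((dvd_neg).1 e2) ((dvd_neg).1 e3) e1
  have hdet' : |δ (θ 0) * α (θ 0) - -β (θ 0) * -γ (θ 0)| = n := by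
    rw [← hdet (θ 0)]
    congr 1
    ring
  have hne1 : X₁ ≠ -Y₁ := by
    intro h0
    linarith [m1.1, m3.1]
  have hne2 : X₂ ≠ -Y₁ := by
    intro h0
    linarith [m2.1, m3.1]
  by_cases hp : Per X₁ (-Y₁)
  · obtain ⟨M, hM, hleaf⟩ := leaf hne2 q2 (fun hp2 => hXX
      (per_unique (irr_of_form q1).2 hne1 hne2 hp hp2))
    obtain ⟨c, hc1, hc2⟩ := hleaf n _ _ _ _ hn0 hdet' hprim' l2
    exact hn ⟨c, M, hM, hc1, hc2⟩
  · obtain ⟨M, hM, hleaf⟩ := leaf hne1 q1 hp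
    obtain ⟨c, hc1, hc2⟩ := hleaf n _ _ _ _ hn0 hdet' hprim' l1
    exact hn ⟨c, M, hM, hc1, hc2⟩

/-- **Uniform gap.** -/
theorem main_unif (n : ℕ) (hn0 : n ≠ 0)
    (hn : ¬ ∃ (c : ℕ) (M : ℤ), IsMarkov M ∧ (c : ℤ) ∣ M ∧ n = c ^ 2) : ∃ δ : ℝ, 0 < δ ∧
    ∀ x : ℝ, Irrational x → ¬ Quad x → ∀ a b c d : ℤ, Prim a b c d → |a * d - b * c| = n →
      ((3 + δ : ℝ) : EReal) ≤ max (lagrangeValue x) (lagrangeValue ((a * x + b) / (c * x + d))) := by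
  by_contra hcon
  push Not at hcon
  have hn' : (0 : ℝ) < n := by exact_mod_cast Nat.pos_of_ne_zero hn0
  apply data_contra' hn0 hn
  intro j
  have hε : (0 : ℝ) < 1 / (j + 100) := by positivity
  have hε1 : (1 : ℝ) / (j + 100) ≤ 1 / 100 := by
    apply one_div_le_one_div_of_le (by norm_num)
    have : (0 : ℝ) ≤ j := Nat.cast_nonneg j
    linarith
  obtain ⟨x, hx, hq, a, b, c, d, hp, hd, hlt⟩ := hcon (1 / (j + 100) / n) (by positivity)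
  rw [max_lt_iff] at hlt
  exact exists_data' hn0 hx hq hp hd hε hε1 (by omega) hlt.1 hlt.2

end Pool.Agent.L3
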